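import Pool.Agent.Lib.MP_87323d_lc.Banach

/-!
Medial Banach limits.
-/

set_option autoImplicit false

namespace Pool.Agent.MP_87323d_lc

open MeasureTheory Filter Topology

theorem map_nonneg_of_norm {L : Linf →L[ℝ] ℝ} (h1 : ‖L‖ ≤ 1) (h2 : L 1 = 1) {x : Linf}
    (hx : ∀ n, 0 ≤ x n) : 0 ≤ L x := by
  by_cases h0 : ‖x‖ = 0
  · rw [norm_eq_zero.1 h0, map_zero]
  · have hpos : 0 < ‖x‖ := lt_of_le_of_ne (norm_nonneg _) (Ne.symm h0)
    set y : Linf := 1 - ‖x‖⁻¹ • x with hy
    have hy1 : ‖y‖ ≤ 1 := by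
      refine norm_le_one_of_coord fun n => ?_
      have e : y n = 1 - ‖x‖⁻¹ * x n := by
        rw [hy, lp.coeFn_sub, Pi.sub_apply, one_apply, lp.coeFn_smul, Pi.smul_apply, smul_eq_mul]
      have h3 : ‖x‖⁻¹ * x n ≤ 1 := by
        rw [inv_mul_le_iff₀ hpos, mul_one]
        exact (le_abs_self _).trans (abs_coord_le x n)
      have h4 : 0 ≤ ‖x‖⁻¹ * x n := mul_nonneg (inv_nonneg.2 hpos.le) (hx n)
      rw [e, abs_le]
      constructor <;> linarith
    have h3 : L y ≤ 1 := (le_abs_self _).trans ((L.le_opNorm y).trans (by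
      calc ‖L‖ * ‖y‖ ≤ 1 * 1 := mul_le_mul h1 hy1 (norm_nonneg _) zero_le_one
        _ = 1 := one_mul _))
    have h4 : L y = 1 - ‖x‖⁻¹ * L x := by
      rw [hy, map_sub, h2, map_smul, smul_eq_mul]
    rw [h4] at h3
    have h5 : 0 ≤ ‖x‖⁻¹ * L x := by linarith
    have h6 : L x = ‖x‖ * (‖x‖⁻¹ * L x) := by field_simp
    rw [h6]
    exact mul_nonneg hpos.le h5

theorem le_of_eventually {L : Linf →L[ℝ] ℝ} (h1 : ‖L‖ ≤ 1) (h2 : L 1 = 1)
    (h0 : ∀ x : Linf, Tendsto (fun n => x n) atTop (𝓝 0) → L x = 0) {x : Linf} {c : ℝ}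
    (hx : ∀ᶠ n in atTop, x n ≤ c) : L x ≤ c := by
  obtain ⟨N, hN⟩ := eventually_atTop.1 hx
  -- the part of `c - x` behind `N`
  have hb : ∀ n, |if n < N then (0 : ℝ) else c - x n| ≤ |c| + ‖x‖ := fun n => by
    split_ifs
    · rw [abs_zero]; positivity
    · exact (abs_sub _ _).trans (add_le_add le_rfl (abs_coord_le x n))
  set y : Linf := seqOf fun n => if n < N then 0 else c - x n with hy
  have hyn : ∀ n, y n = if n < N then 0 else c - x n := fun n => seqOf_apply hb n
  have hy0 : 0 ≤ L y := map_nonneg_of_norm h1 h2 fun n => by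
    rw [hyn]
    split_ifs with h
    · exact le_rfl
    · linarith [hN n (not_lt.1 h)]
  have hz : L (y - (c • (1 : Linf) - x)) = 0 := by
    refine h0 _ ?_
    refine (tendsto_const_nhds (x := (0 : ℝ))).congr' ?_
    filter_upwards [eventually_ge_atTop N] with n hn
    rw [lp.coeFn_sub, Pi.sub_apply, lp.coeFn_sub, Pi.sub_apply, lp.coeFn_smul, Pi.smul_apply,
      one_apply, hyn, if_neg (not_lt.2 hn), smul_eq_mul]
    ring
  rw [map_sub, map_sub, map_smul, h2, smul_eq_mul, mul_one] at hz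
  linarith

theorem avg_null {x : Linf} (hx : Tendsto (fun n => x n) atTop (𝓝 0)) :
    Tendsto (fun n => avgL x n) atTop (𝓝 0) := by
  have h1 : Tendsto (fun n : ℕ => (n : ℝ)⁻¹ * ∑ i ∈ Finset.range n, x i) atTop (𝓝 0) := by
    have := hx.cesaro
    simpa using this
  have h2 := (tendsto_add_atTop_iff_nat 1).2 h1
  refine h2.congr fun n => ?_
  rw [avgL_apply]
  unfold avg
  push_cast
  rfl

theorem avg_shift (x : Linf) : Tendsto (fun n => avgL ((seqOf fun n => x (n + 1)) - x) n) atTop (𝓝 0) := by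
  have hs : ∀ n, |x (n + 1)| ≤ ‖x‖ := fun n => abs_coord_le x (n + 1)
  have e : ∀ n, avgL ((seqOf fun n => x (n + 1)) - x) n = (n + 1 : ℝ)⁻¹ * (x (n + 1) - x 0) := by
    intro n
    rw [avgL_apply]
    unfold avg
    congr 1
    have : ∀ i, ((seqOf fun n => x (n + 1)) - x : Linf) i = x (i + 1) - x i := fun i => by
      rw [lp.coeFn_sub, Pi.sub_apply, seqOf_apply hs]
    simp only [this]
    exact Finset.sum_range_sub (fun i => x i) (n + 1)
  have h1 : Tendsto (fun n : ℕ => (n + 1 : ℝ)⁻¹ * (2 * ‖x‖)) atTop (𝓝 (0 * (2 * ‖x‖))) := by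
    refine Tendsto.mul_const _ ?_
    have := tendsto_one_div_add_atTop_nhds_zero_nat (𝕜 := ℝ)
    simpa [one_div] using this
  rw [zero_mul] at h1
  refine squeeze_zero_norm (fun n => ?_) h1
  rw [e, norm_mul, norm_inv]
  have h2 : ‖(n + 1 : ℝ)‖ = n + 1 := by rw [Real.norm_eq_abs, abs_of_pos (by positivity)]
  rw [h2]
  refine mul_le_mul_of_nonneg_left ?_ (by positivity)
  calc ‖x (n + 1) - x 0‖ ≤ ‖x (n + 1)‖ + ‖x 0‖ := norm_sub_le _ _
    _ ≤ ‖x‖ + ‖x‖ := add_le_add (abs_coord_le x _) (abs_coord_le x _)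
    _ = 2 * ‖x‖ := by ring

/-- A medial functional outside `ℓ¹` gives a medial Banach limit. -/
theorem exists_banach_limit {φ : Linf →L[ℝ] ℝ} (hφ : Medial φ)
    (hne : ¬ ∃ a : ℕ → ℝ, Summable a ∧ ∀ x : Linf, φ x = ∑' n, a n * x n) :
    ∃ L : Linf →L[ℝ] ℝ, IsBanachLimit L ∧ Medial L := by
  set a : ℕ → ℝ := fun n => φ (unitSeq n) with ha
  have hs : Summable fun n => |a n| := summable_coeff φ
  set ψ : Linf →L[ℝ] ℝ := φ - ell1 a hs with hψ
  have hψm : Medial ψ := hφ.sub (medial_ell1 a hs)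
  have hψ0 : ∀ n, ψ (unitSeq n) = 0 := by
    intro n
    rw [hψ, sub_apply, ell1_apply]
    have : ∑' m, a m * unitSeq n m = a n := by
      rw [tsum_eq_single n]
      · rw [unitSeq_apply, if_pos rfl, mul_one]
      · intro m hm
        rw [unitSeq_apply, if_neg hm, mul_zero]
    rw [this, sub_self]
  have hψne : ψ ≠ 0 := by
    intro h
    apply hne
    refine ⟨a, hs.of_abs, fun x => ?_⟩
    have h1 : ψ x = 0 := by rw [h]; rfl
    rw [hψ, sub_apply, ell1_apply] at h1
    linarith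
  obtain ⟨L1, hL1m, hL1n, hL1one, hL1z⟩ := exists_positive hψm hψ0 hψne
  set L : Linf →L[ℝ] ℝ := L1.comp avgL with hL
  have hLone : L 1 = 1 := by
    show L1 (avgL 1) = 1
    have : avgL (1 : Linf) = 1 := by
      ext n
      rw [avgL_apply, one_apply]
      unfold avg
      simp only [one_apply, Finset.sum_const, Finset.card_range, nsmul_eq_mul, mul_one]
      push_cast
      field_simp
    rw [this, hL1one]
  have hLn : ‖L‖ ≤ 1 := by
    refine ContinuousLinearMap.opNorm_le_bound _ zero_le_one fun x => ?_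
    show ‖L1 (avgL x)‖ ≤ 1 * ‖x‖
    exact (L1.le_opNorm _).trans (mul_le_mul hL1n (norm_avgL_le x) (norm_nonneg _) zero_le_one)
  have hLz : ∀ x : Linf, Tendsto (fun n => x n) atTop (𝓝 0) → L x = 0 := fun x hx =>
    hL1z _ (avg_null hx)
  refine ⟨L, ⟨?_, ?_, ?_⟩, hL1m.comp_avgL⟩
  · refine le_antisymm hLn ?_
    have h1 := L.le_opNorm 1
    rw [hLone, norm_one] at h1
    have h2 : ‖(1 : Linf)‖ ≤ 1 := norm_le_one_of_coord fun n => by rw [one_apply]; simp
    calc (1 : ℝ) ≤ ‖L‖ * ‖(1 : Linf)‖ := h1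
      _ ≤ ‖L‖ * 1 := mul_le_mul_of_nonneg_left h2 (norm_nonneg _)
      _ = ‖L‖ := mul_one _
  · have upper : ∀ x : Linf, L x ≤ limsup (fun n => x n) atTop := by
      intro x
      have hbu : IsBoundedUnder (· ≤ ·) atTop (fun n => x n) :=
        ⟨‖x‖, eventually_map.2 (Eventually.of_forall fun n =>
          (le_abs_self _).trans (abs_coord_le x n))⟩
      refine le_of_forall_gt_imp_ge_of_dense fun c hc => ?_
      refine le_of_eventually hLn hLone hLz ?_
      filter_upwards [eventually_lt_of_limsup_lt hc hbu] with n hn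
      exact hn.le
    have lower : ∀ x : Linf, liminf (fun n => x n) atTop ≤ L x := by
      intro x
      have hbl : IsBoundedUnder (· ≥ ·) atTop (fun n => x n) :=
        ⟨-‖x‖, eventually_map.2 (Eventually.of_forall fun n =>
          (abs_le.1 (abs_coord_le x n)).1)⟩
      refine le_of_forall_lt_imp_le_of_dense fun c hc => ?_
      have h1 : L (-x) ≤ -c := by
        refine le_of_eventually hLn hLone hLz ?_
        filter_upwards [eventually_lt_of_lt_liminf hc hbl] with n hn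
        rw [lp.coeFn_neg, Pi.neg_apply]
        linarith
      rw [map_neg] at h1
      linarith
    exact fun x => ⟨lower x, upper x⟩
  · intro x
    have h1 : L ((seqOf fun n => x (n + 1)) - x) = 0 := hL1z _ (avg_shift x)
    rw [map_sub] at h1
    linarith

end Pool.Agent.MP_87323d_lc
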