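import Pool.Agent.Lib.MP_87323d_lc.Limit

/-!
From a medial functional outside `ℓ¹` to a medial Banach limit.
-/

set_option autoImplicit false

namespace Pool.Agent.MP_87323d_lc

open MeasureTheory Filter Topology

theorem abs_coord_le (x : Linf) (n : ℕ) : |x n| ≤ ‖x‖ := lp.norm_apply_le_norm (by simp) x n

/-- The unit vectors. -/
noncomputable def unitSeq (n : ℕ) : Linf := seqOf fun m => if m = n then 1 else 0

theorem unitSeq_apply (n m : ℕ) : unitSeq n m = if m = n then 1 else 0 :=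
  seqOf_apply (C := 1) (fun m => by split_ifs <;> simp) m

theorem sum_unitSeq_apply (s : Finset ℕ) (c : ℕ → ℝ) (m : ℕ) :
    (∑ n ∈ s, c n • unitSeq n : Linf) m = if m ∈ s then c m else 0 := by
  rw [lp.coeFn_sum, Finset.sum_apply]
  simp only [lp.coeFn_smul, Pi.smul_apply, unitSeq_apply, smul_eq_mul, mul_ite, mul_one, mul_zero]
  rw [Finset.sum_ite_eq]

theorem summable_coeff (φ : Linf →L[ℝ] ℝ) : Summable fun n => |φ (unitSeq n)| := by
  refine summable_of_sum_le (c := ‖φ‖) (fun n => abs_nonneg _) fun s => ?_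
  have h1 : ∑ n ∈ s, |φ (unitSeq n)|
      = φ (∑ n ∈ s, (SignType.sign (φ (unitSeq n)) : ℝ) • unitSeq n) := by
    rw [map_sum]
    refine Finset.sum_congr rfl fun n _ => ?_
    rw [map_smul, smul_eq_mul, sign_mul_self]
  rw [h1]
  refine (le_abs_self _).trans ((φ.le_opNorm _).trans ?_)
  have h2 : ‖(∑ n ∈ s, (SignType.sign (φ (unitSeq n)) : ℝ) • unitSeq n : Linf)‖ ≤ 1 := by
    refine lp.norm_le_of_forall_le zero_le_one fun m => ?_
    rw [sum_unitSeq_apply]
    split_ifs
    · rcases SignType.trichotomy (SignType.sign (φ (unitSeq m))) with h | h | h <;> rw [h] <;> simp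
    · simp
  calc ‖φ‖ * _ ≤ ‖φ‖ * 1 := mul_le_mul_of_nonneg_left h2 (norm_nonneg _)
    _ = ‖φ‖ := mul_one _

theorem summable_mul_coord {a : ℕ → ℝ} (ha : Summable fun n => |a n|) (x : Linf) :
    Summable fun n => a n * x n := by
  refine Summable.of_norm_bounded (g := fun n => |a n| * ‖x‖) (ha.mul_right _) fun n => ?_
  rw [Real.norm_eq_abs, abs_mul]
  exact mul_le_mul_of_nonneg_left (abs_coord_le x n) (abs_nonneg _)

/-- The functional given by an element of `ℓ¹`. -/
noncomputable def ell1 (a : ℕ → ℝ) (ha : Summable fun n => |a n|) : Linf →L[ℝ] ℝ :=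
  LinearMap.mkContinuous
    { toFun := fun x => ∑' n, a n * x n
      map_add' := fun x y => by
        rw [← (summable_mul_coord ha x).tsum_add (summable_mul_coord ha y)]
        congr 1
        ext n
        simp only [lp.coeFn_add, Pi.add_apply]
        ring
      map_smul' := fun c x => by
        simp only [lp.coeFn_smul, Pi.smul_apply, smul_eq_mul, RingHom.id_apply]
        rw [← tsum_mul_left]
        congr 1
        ext n
        ring }
    (∑' n, |a n|) (fun x => by
      show ‖∑' n, a n * x n‖ ≤ _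
      have h1 : Summable fun n => ‖a n * x n‖ := (summable_mul_coord ha x).norm
      refine (norm_tsum_le_tsum_norm h1).trans ?_
      rw [← tsum_mul_right]
      refine h1.tsum_le_tsum (fun n => ?_) (ha.mul_right _)
      rw [Real.norm_eq_abs, abs_mul]
      exact mul_le_mul_of_nonneg_left (abs_coord_le x n) (abs_nonneg _))

theorem ell1_apply (a : ℕ → ℝ) (ha : Summable fun n => |a n|) (x : Linf) :
    ell1 a ha x = ∑' n, a n * x n := rfl

theorem medial_ell1 (a : ℕ → ℝ) (ha : Summable fun n => |a n|) : Medial (ell1 a ha) := by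
  intro Ω _ P _ f C hf hC
  have hne : Nonempty Ω := by
    by_contra hcon
    rw [not_nonempty_iff] at hcon
    have := measure_univ (μ := P)
    rw [Set.univ_eq_empty_iff.2 hcon] at this
    simp at this
  obtain ⟨ω0⟩ := hne
  have hC0 : 0 ≤ C := (abs_nonneg _).trans (hC 0 ω0)
  have hI : ∀ n, |∫ ω, f n ω ∂P| ≤ C := fun n => by
    have := norm_integral_le_of_norm_le_const (μ := P) (f := f n) (C := C)
      (Eventually.of_forall (hC n))
    simpa using this
  have hint : ∀ n, Integrable (f n) P := fun n =>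
    Integrable.of_bound (hf n).aestronglyMeasurable C (Eventually.of_forall (hC n))
  have e1 : ∀ ω, ell1 a ha (seqOf fun n => f n ω) = ∑' n, a n * f n ω := fun ω => by
    rw [ell1_apply]
    congr 1
    ext n
    rw [seqOf_apply fun n => hC n ω]
  have e2 : ell1 a ha (seqOf fun n => ∫ ω, f n ω ∂P) = ∑' n, ∫ ω, a n * f n ω ∂P := by
    rw [ell1_apply]
    congr 1
    ext n
    rw [seqOf_apply hI, integral_const_mul]
  have hs : ∀ ω, Summable fun n => a n * f n ω := fun ω =>
    Summable.of_norm_bounded (g := fun n => |a n| * C) (ha.mul_right _) fun n => by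
      rw [Real.norm_eq_abs, abs_mul]
      exact mul_le_mul_of_nonneg_left (hC n ω) (abs_nonneg _)
  simp only [e1]
  rw [e2]
  constructor
  · refine aemeasurable_of_tendsto_metrizable_ae atTop
      (f := fun N ω => ∑ n ∈ Finset.range N, a n * f n ω)
      (fun N => (Finset.measurable_fun_sum _ fun n _ => (hf n).const_mul _).aemeasurable)
      (Eventually.of_forall fun ω => (hs ω).hasSum.tendsto_sum_nat)
  · have h1 : Summable fun n => ∫ ω, ‖a n * f n ω‖ ∂P := by
      refine Summable.of_nonneg_of_le (fun n => integral_nonneg fun ω => norm_nonneg _)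
        (fun n => ?_) (ha.mul_right C)
      have h2 := norm_integral_le_of_norm_le_const (μ := P) (f := fun ω => ‖a n * f n ω‖)
        (C := |a n| * C) (Eventually.of_forall fun ω => by
          rw [norm_norm, Real.norm_eq_abs, abs_mul]
          exact mul_le_mul_of_nonneg_left (hC n ω) (abs_nonneg _))
      rw [probReal_univ, mul_one] at h2
      exact (le_abs_self _).trans h2
    exact ((hasSum_integral_of_summable_integral_norm (fun n => (hint n).const_mul (a n))
      h1).tsum_eq).symm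

/-- A functional which kills the unit vectors kills all null sequences. -/
theorem map_null {ψ : Linf →L[ℝ] ℝ} (h : ∀ n, ψ (unitSeq n) = 0) {x : Linf}
    (hx : Tendsto (fun n => x n) atTop (𝓝 0)) : ψ x = 0 := by
  have key : ∀ ε : ℝ, 0 < ε → |ψ x| ≤ ‖ψ‖ * ε := by
    intro ε hε
    obtain ⟨N, hN⟩ := (Metric.tendsto_atTop.1 hx) ε hε
    set s := ∑ n ∈ Finset.range N, (x n) • unitSeq n with hs
    have h1 : ψ s = 0 := by
      rw [hs, map_sum]
      exact Finset.sum_eq_zero fun n _ => by rw [map_smul, h n, smul_zero]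
    have h2 : ‖x - s‖ ≤ ε := by
      refine lp.norm_le_of_forall_le hε.le fun m => ?_
      rw [lp.coeFn_sub, Pi.sub_apply, hs, sum_unitSeq_apply]
      split_ifs with hm
      · simpa using hε.le
      · rw [Finset.mem_range, not_lt] at hm
        have := hN m hm
        rw [dist_zero_right] at this
        rw [sub_zero]
        exact this.le
    have h3 : ψ x = ψ (x - s) := by rw [map_sub, h1, sub_zero]
    rw [h3]
    exact (ψ.le_opNorm _).trans (mul_le_mul_of_nonneg_left h2 (norm_nonneg _))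
  by_contra hne
  have hpos : 0 < |ψ x| := abs_pos.2 hne
  have h1 := key (|ψ x| / (2 * (‖ψ‖ + 1))) (by positivity)
  have h2 : ‖ψ‖ * (|ψ x| / (2 * (‖ψ‖ + 1))) ≤ |ψ x| / 2 := by
    rw [mul_div_assoc', div_le_div_iff₀ (by positivity) (by norm_num)]
    nlinarith [norm_nonneg ψ]
  linarith

/-- The unit. -/
theorem one_apply (n : ℕ) : (1 : Linf) n = 1 := by
  rw [lp.infty_coeFn_one]; rfl

theorem norm_le_one_of_coord {x : Linf} (h : ∀ n, |x n| ≤ 1) : ‖x‖ ≤ 1 :=
  lp.norm_le_of_forall_le zero_le_one h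

/-- Near maxima. -/
theorem near_max (ψ : Linf →L[ℝ] ℝ) (δ : ℝ) (hδ : 0 < δ) :
    ∃ x : Linf, ‖x‖ ≤ 1 ∧ ‖ψ‖ - δ ≤ ψ x := by
  by_cases h0 : ‖ψ‖ = 0
  · exact ⟨0, by simp, by rw [map_zero, h0]; linarith⟩
  · obtain ⟨x, hx1, hx2⟩ := ψ.exists_lt_apply_of_lt_opNorm (r := ‖ψ‖ - δ) (by linarith)
    rcases le_total 0 (ψ x) with h | h
    · refine ⟨x, hx1.le, ?_⟩
      rw [Real.norm_eq_abs, abs_of_nonneg h] at hx2
      exact hx2.le
    · refine ⟨-x, by rw [norm_neg]; exact hx1.le, ?_⟩
      rw [Real.norm_eq_abs, abs_of_nonpos h] at hx2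
      rw [map_neg]
      exact hx2.le

theorem near_max_close {ψ : Linf →L[ℝ] ℝ} {δ : ℝ} {x y : Linf} (hx : ‖x‖ ≤ 1) (hy : ‖y‖ ≤ 1)
    (hxψ : ‖ψ‖ - δ ≤ ψ x) (hyψ : ‖ψ‖ - δ ≤ ψ y) :
    ‖ψ.comp (mulL x) - ψ.comp (mulL y)‖ ≤ 2 * δ := by
  have hδ : 0 ≤ δ := by
    have h1 : ψ x ≤ ‖ψ‖ := (le_abs_self _).trans ((ψ.le_opNorm x).trans (by
      calc ‖ψ‖ * ‖x‖ ≤ ‖ψ‖ * 1 := mul_le_mul_of_nonneg_left hx (norm_nonneg _)
        _ = ‖ψ‖ := mul_one _))
    linarith
  have key : ∀ z : Linf, ‖z‖ ≤ 1 → ψ (mulL x z) - ψ (mulL y z) ≤ 2 * δ := by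
    intro z hz
    -- the test vector
    set w : Linf := (1 / 2 : ℝ) • (x + y) + (1 / 2 : ℝ) • (mulL x z - mulL y z) with hw
    have hw1 : ‖w‖ ≤ 1 := by
      refine norm_le_one_of_coord fun n => ?_
      have ex : |x n| ≤ 1 := (abs_coord_le x n).trans hx
      have ey : |y n| ≤ 1 := (abs_coord_le y n).trans hy
      have ez : |z n| ≤ 1 := (abs_coord_le z n).trans hz
      have e1 : w n = 1 / 2 * (x n + y n) + 1 / 2 * ((x n - y n) * z n) := by
        rw [hw]
        simp only [lp.coeFn_add, Pi.add_apply, lp.coeFn_smul, Pi.smul_apply, smul_eq_mul,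
          lp.coeFn_sub, Pi.sub_apply, mulL_apply]
        ring
      rw [e1]
      have e2 : |(x n - y n) * z n| ≤ |x n - y n| := by
        rw [abs_mul]
        calc |x n - y n| * |z n| ≤ |x n - y n| * 1 :=
              mul_le_mul_of_nonneg_left ez (abs_nonneg _)
          _ = _ := mul_one _
      have e3 := abs_le.1 ex
      have e4 := abs_le.1 ey
      have e5 := abs_le.1 e2
      rw [abs_le]
      rcases le_total (x n) (y n) with h | h
      · rw [abs_of_nonpos (by linarith)] at e5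
        constructor <;> linarith [e5.1, e5.2, e3.1, e3.2, e4.1, e4.2]
      · rw [abs_of_nonneg (by linarith)] at e5
        constructor <;> linarith [e5.1, e5.2, e3.1, e3.2, e4.1, e4.2]
    have h1 : ψ w ≤ ‖ψ‖ := (le_abs_self _).trans ((ψ.le_opNorm w).trans (by
      calc ‖ψ‖ * ‖w‖ ≤ ‖ψ‖ * 1 := mul_le_mul_of_nonneg_left hw1 (norm_nonneg _)
        _ = ‖ψ‖ := mul_one _))
    have h2 : ψ w = 1 / 2 * (ψ x + ψ y) + 1 / 2 * (ψ (mulL x z) - ψ (mulL y z)) := by
      rw [hw]
      simp only [map_add, map_smul, map_sub, smul_eq_mul]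
    linarith
  refine ContinuousLinearMap.opNorm_le_of_unit_norm (by linarith) fun z hz => ?_
  rw [sub_apply, ContinuousLinearMap.comp_apply, ContinuousLinearMap.comp_apply,
    Real.norm_eq_abs, abs_le]
  constructor
  · have h1 := key (-z) (by rw [norm_neg]; exact hz.le)
    rw [map_neg, map_neg, map_neg, map_neg] at h1
    linarith
  · exact key z hz.le

/-- The functional has a positive relative which is medial. -/
theorem exists_positive {ψ : Linf →L[ℝ] ℝ} (hψ : Medial ψ) (h0 : ∀ n, ψ (unitSeq n) = 0)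
    (hne : ψ ≠ 0) : ∃ L : Linf →L[ℝ] ℝ, Medial L ∧ ‖L‖ ≤ 1 ∧ L 1 = 1 ∧
      ∀ x : Linf, Tendsto (fun n => x n) atTop (𝓝 0) → L x = 0 := by
  have hpos : 0 < ‖ψ‖ := norm_pos_iff.2 hne
  choose x hx1 hx2 using fun k : ℕ => near_max ψ (1 / (k + 1 : ℝ)) (by positivity)
  set L : ℕ → Linf →L[ℝ] ℝ := fun k => ψ.comp (mulL (x k)) with hL
  have hcau : CauchySeq L := by
    refine cauchySeq_of_le_tendsto_0 (fun N : ℕ => 2 * (1 / (N + 1 : ℝ))) ?_ ?_
    · intro n m N hn hm
      rw [dist_eq_norm]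
      refine near_max_close (hx1 n) (hx1 m) ?_ ?_
      · refine le_trans ?_ (hx2 n)
        have : (1 : ℝ) / (n + 1) ≤ 1 / (N + 1) := by
          apply one_div_le_one_div_of_le (by positivity)
          have : (N : ℝ) ≤ n := by exact_mod_cast hn
          linarith
        linarith
      · refine le_trans ?_ (hx2 m)
        have : (1 : ℝ) / (m + 1) ≤ 1 / (N + 1) := by
          apply one_div_le_one_div_of_le (by positivity)
          have : (N : ℝ) ≤ m := by exact_mod_cast hm
          linarith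
        linarith
    · have := (tendsto_one_div_add_atTop_nhds_zero_nat (𝕜 := ℝ)).const_mul 2
      simpa using this
  obtain ⟨L0, hL0⟩ := cauchySeq_tendsto_of_complete hcau
  have hmed : Medial L0 := Medial.of_tendsto (fun k => hψ.comp_mulL (x k)) hL0
  have hpt : ∀ y : Linf, Tendsto (fun k => L k y) atTop (𝓝 (L0 y)) := fun y =>
    ((ContinuousLinearMap.apply ℝ ℝ y).continuous.tendsto L0).comp hL0
  have hle : ∀ k (y : Linf), |L k y| ≤ ‖ψ‖ * ‖y‖ := by
    intro k y
    have h1 : ‖mulL (x k) y‖ ≤ ‖y‖ := by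
      refine lp.norm_le_of_forall_le (norm_nonneg _) fun n => ?_
      rw [mulL_apply, Real.norm_eq_abs, abs_mul]
      calc |x k n| * |y n| ≤ 1 * ‖y‖ := mul_le_mul ((abs_coord_le _ n).trans (hx1 k))
            (abs_coord_le y n) (abs_nonneg _) zero_le_one
        _ = ‖y‖ := one_mul _
    exact (ψ.le_opNorm _).trans (mul_le_mul_of_nonneg_left h1 (norm_nonneg _))
  have hL0le : ∀ y : Linf, |L0 y| ≤ ‖ψ‖ * ‖y‖ := fun y =>
    le_of_tendsto (hpt y).abs (Eventually.of_forall fun k => hle k y)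
  have hone : L0 1 = ‖ψ‖ := by
    refine tendsto_nhds_unique (hpt 1) ?_
    have h1 : ∀ k, L k 1 = ψ (x k) := fun k => by
      show ψ (mulL (x k) 1) = ψ (x k)
      congr 1
      ext n
      rw [mulL_apply, one_apply, mul_one]
    have h2 : Tendsto (fun k : ℕ => ‖ψ‖ - 1 / (k + 1 : ℝ)) atTop (𝓝 (‖ψ‖ - 0)) :=
      tendsto_const_nhds.sub (tendsto_one_div_add_atTop_nhds_zero_nat (𝕜 := ℝ))
    rw [sub_zero] at h2
    refine tendsto_of_tendsto_of_tendsto_of_le_of_le h2 tendsto_const_nhds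
      (fun k => ?_) (fun k => ?_)
    · rw [h1]; exact hx2 k
    · rw [h1]
      refine (le_abs_self _).trans ((ψ.le_opNorm (x k)).trans ?_)
      calc ‖ψ‖ * ‖x k‖ ≤ ‖ψ‖ * 1 := mul_le_mul_of_nonneg_left (hx1 k) (norm_nonneg _)
        _ = ‖ψ‖ := mul_one _
  refine ⟨‖ψ‖⁻¹ • L0, hmed.smul _, ?_, ?_, ?_⟩
  · refine ContinuousLinearMap.opNorm_le_bound _ zero_le_one fun y => ?_
    rw [smul_apply, smul_eq_mul, norm_mul, norm_inv, norm_norm, one_mul, inv_mul_le_iff₀ hpos]
    exact hL0le y
  · rw [smul_apply, smul_eq_mul, hone, inv_mul_cancel₀ hpos.ne']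
  · intro y hy
    have h1 : ∀ k, L k y = 0 := fun k => by
      show ψ (mulL (x k) y) = 0
      refine map_null h0 ?_
      have h2 : Tendsto (fun n => |y n|) atTop (𝓝 0) := by simpa using hy.abs
      refine squeeze_zero_norm (fun n => ?_) h2
      rw [mulL_apply, Real.norm_eq_abs, abs_mul]
      calc |x k n| * |y n| ≤ 1 * |y n| := mul_le_mul_of_nonneg_right
            ((abs_coord_le _ n).trans (hx1 k)) (abs_nonneg _)
        _ = |y n| := one_mul _
    have h2 : L0 y = 0 := by
      refine tendsto_nhds_unique (hpt y) ?_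
      simp only [h1]
      exact tendsto_const_nhds
    rw [smul_apply, h2, smul_zero]

end Pool.Agent.MP_87323d_lc
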