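import Pool.Agent.Lib.MP_87323d_lc.Defs

/-!
A functional which is measurable along all sequences of functions on a probability space with the
coboundary property commutes with the integral.
-/

set_option autoImplicit false

namespace Pool.Agent.MP_87323d_lc

open MeasureTheory ENNReal

section

variable {X : Type} [MeasurableSpace X] {μ : Measure X} [IsProbabilityMeasure μ]

/-- The functional is measurable along the sequences of measurable functions on `X`. -/
def MeasOn (μ : Measure X) (φ : Linf →L[ℝ] ℝ) : Prop :=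
  ∀ (g : ℕ → X → ℝ) (C : ℝ), (∀ n, Measurable (g n)) → (∀ n x, |g n x| ≤ C) →
    AEMeasurable (fun x => φ (seqOf fun n => g n x)) μ

theorem MeasOn.integrable {φ : Linf →L[ℝ] ℝ} (h : MeasOn μ φ) {g : ℕ → X → ℝ} {C : ℝ}
    (hg : ∀ n, Measurable (g n)) (hC : ∀ n x, |g n x| ≤ C) :
    Integrable (fun x => φ (seqOf fun n => g n x)) μ :=
  Integrable.of_bound (h g C hg hC).aestronglyMeasurable (‖φ‖ * C)
    (Filter.Eventually.of_forall fun x => abs_map_seqOf_le φ fun n => hC n x)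

theorem enorm_map_seqOf_le (φ : Linf →L[ℝ] ℝ) (a : ℕ → ℝ) :
    ‖φ (seqOf a)‖ₑ ≤ ENNReal.ofReal (‖φ‖ + 1) * ∑' n, ‖a n‖ₑ := by
  have hpos : 0 < ‖φ‖ + 1 := by positivity
  by_cases hs : ∑' n, ‖a n‖ₑ = ⊤
  · rw [hs, ENNReal.mul_top (by simpa using hpos)]
    exact le_top
  · set s := (∑' n, ‖a n‖ₑ).toReal with hs'
    have h1 : ∀ n, |a n| ≤ s := by
      intro n
      have h2 : ‖a n‖ₑ ≤ ∑' n, ‖a n‖ₑ := ENNReal.le_tsum n
      have h3 := ENNReal.toReal_mono hs h2
      simpa using h3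
    have h2 := abs_map_seqOf_le φ h1
    have hs0 : 0 ≤ s := ENNReal.toReal_nonneg
    rw [← Real.enorm_abs, Real.enorm_of_nonneg (abs_nonneg _), ← ENNReal.ofReal_toReal hs,
      ← ENNReal.ofReal_mul hpos.le]
    refine ENNReal.ofReal_le_ofReal (h2.trans ?_)
    gcongr
    linarith

/-- The error term. -/
theorem abs_int_le {φ : Linf →L[ℝ] ℝ} {r : ℕ → X → ℝ} (hr : ∀ n, Measurable (r n))
    {D ε : ℝ} (hD : ∀ n x, |r n x| ≤ D) (hε : 0 ≤ ε)
    (h : ∀ n, ∫ x, |r n x| ∂μ ≤ ε * (1 / 2) ^ (n + 1)) :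
    |∫ x, φ (seqOf fun n => r n x) ∂μ| ≤ (‖φ‖ + 1) * ε := by
  have hpos : 0 < ‖φ‖ + 1 := by positivity
  have hint : ∀ n, Integrable (r n) μ := fun n =>
    Integrable.of_bound (hr n).aestronglyMeasurable D (Filter.Eventually.of_forall (hD n))
  have h1 : ∀ n, ∫⁻ x, ‖r n x‖ₑ ∂μ ≤ ENNReal.ofReal (ε * (1 / 2) ^ (n + 1)) := by
    intro n
    have h2 : ∫⁻ x, ‖r n x‖ₑ ∂μ = ENNReal.ofReal (∫ x, ‖r n x‖ ∂μ) :=
      (ofReal_integral_norm_eq_lintegral_enorm (hint n)).symm
    rw [h2]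
    exact ENNReal.ofReal_le_ofReal (h n)
  have h2 : ‖∫ x, φ (seqOf fun n => r n x) ∂μ‖ₑ ≤ ENNReal.ofReal ((‖φ‖ + 1) * ε) := by
    calc ‖∫ x, φ (seqOf fun n => r n x) ∂μ‖ₑ
        ≤ ∫⁻ x, ‖φ (seqOf fun n => r n x)‖ₑ ∂μ := enorm_integral_le_lintegral_enorm _
      _ ≤ ∫⁻ x, ENNReal.ofReal (‖φ‖ + 1) * ∑' n, ‖r n x‖ₑ ∂μ :=
          lintegral_mono fun x => enorm_map_seqOf_le φ _
      _ = ENNReal.ofReal (‖φ‖ + 1) * ∑' n, ∫⁻ x, ‖r n x‖ₑ ∂μ := by
          rw [lintegral_const_mul' _ _ ENNReal.ofReal_ne_top, lintegral_tsum]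
          exact fun n => (hr n).enorm.aemeasurable
      _ ≤ ENNReal.ofReal (‖φ‖ + 1) * ∑' n : ℕ, ENNReal.ofReal (ε * (1 / 2) ^ (n + 1)) := by
          gcongr with n
          exact h1 n
      _ = ENNReal.ofReal ((‖φ‖ + 1) * ε) := by
          have hsum : HasSum (fun n : ℕ => ε * (1 / 2 : ℝ) ^ (n + 1)) ε := by
            have := (hasSum_geometric_two' (ε)).congr_fun (g := fun n => ε * (1 / 2 : ℝ) ^ (n + 1))
              (fun n => by rw [pow_succ, one_div, inv_pow]; field_simp)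
            exact this
          rw [← ENNReal.ofReal_tsum_of_nonneg (fun n => by positivity) hsum.summable, hsum.tsum_eq,
            ENNReal.ofReal_mul hpos.le]
  rw [← Real.enorm_abs, Real.enorm_of_nonneg (abs_nonneg _)] at h2
  exact (ENNReal.ofReal_le_ofReal_iff (by positivity)).1 h2

/-- Commutation for the sequences with mean zero. -/
theorem int_eq_zero {u v : X ≃ᵐ X} (hu : MeasurePreserving u μ μ) (hv : MeasurePreserving v μ μ)
    (hcob : ∀ ε : ℝ, 0 < ε → ε ≤ 1 → ∃ C : ℝ, 0 ≤ C ∧ ∀ f : X → ℝ, Measurable f →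
      (∀ x, |f x| ≤ 1) → ∫ x, f x ∂μ = 0 → ∀ η : ℝ, 0 < η →
      ∃ g k e : X → ℝ, Measurable g ∧ Measurable k ∧ Measurable e ∧ (∀ x, |g x| ≤ C) ∧
      (∀ x, |k x| ≤ C) ∧ (∀ x, |e x| ≤ ε) ∧
      ∫ x, |f x - ((g x - g (u x)) + (k x - k (v x)) + e x)| ∂μ ≤ η)
    {φ : Linf →L[ℝ] ℝ} (hφ : MeasOn μ φ) {f : ℕ → X → ℝ} (hf : ∀ n, Measurable (f n))
    (hf1 : ∀ n x, |f n x| ≤ 1) (hf0 : ∀ n, ∫ x, f n x ∂μ = 0) :
    ∫ x, φ (seqOf fun n => f n x) ∂μ = 0 := by
  have key : ∀ ε : ℝ, 0 < ε → ε ≤ 1 → |∫ x, φ (seqOf fun n => f n x) ∂μ| ≤ (2 * ‖φ‖ + 1) * ε := by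
    intro ε hε hε1
    obtain ⟨C, hC, H⟩ := hcob ε hε hε1
    choose g k e mg mk me bg bk be hr using fun n =>
      H (f n) (hf n) (hf1 n) (hf0 n) (ε * (1 / 2) ^ (n + 1)) (by positivity)
    set r : ℕ → X → ℝ := fun n x =>
      f n x - ((g n x - g n (u x)) + (k n x - k n (v x)) + e n x) with hr'
    have mr : ∀ n, Measurable (r n) := fun n => (hf n).sub ((((mg n).sub
      ((mg n).comp u.measurable)).add ((mk n).sub ((mk n).comp v.measurable))).add (me n))
    have bgu : ∀ n x, |g n (u x)| ≤ C := fun n x => bg n (u x)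
    have bkv : ∀ n x, |k n (v x)| ≤ C := fun n x => bk n (v x)
    have bd1 : ∀ n x, |g n x - g n (u x)| ≤ C + C := fun n x =>
      (abs_sub _ _).trans (add_le_add (bg n x) (bgu n x))
    have bd2 : ∀ n x, |k n x - k n (v x)| ≤ C + C := fun n x =>
      (abs_sub _ _).trans (add_le_add (bk n x) (bkv n x))
    have bd3 : ∀ n x, |(g n x - g n (u x)) + (k n x - k n (v x))| ≤ C + C + (C + C) := fun n x =>
      (abs_add_le _ _).trans (add_le_add (bd1 n x) (bd2 n x))
    have bd4 : ∀ n x, |(g n x - g n (u x)) + (k n x - k n (v x)) + e n x| ≤ C + C + (C + C) + ε :=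
      fun n x => (abs_add_le _ _).trans (add_le_add (bd3 n x) (be n x))
    have br : ∀ n x, |r n x| ≤ 1 + (C + C + (C + C) + ε) := fun n x =>
      (abs_sub _ _).trans (add_le_add (hf1 n x) (bd4 n x))
    have ig : Integrable (fun x => φ (seqOf fun n => g n x)) μ := hφ.integrable mg bg
    have igu : Integrable (fun x => φ (seqOf fun n => g n (u x))) μ :=
      hφ.integrable (g := fun n x => g n (u x)) (fun n => (mg n).comp u.measurable) bgu
    have ik : Integrable (fun x => φ (seqOf fun n => k n x)) μ := hφ.integrable mk bk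
    have ikv : Integrable (fun x => φ (seqOf fun n => k n (v x))) μ :=
      hφ.integrable (g := fun n x => k n (v x)) (fun n => (mk n).comp v.measurable) bkv
    have ie : Integrable (fun x => φ (seqOf fun n => e n x)) μ := hφ.integrable me be
    have ir : Integrable (fun x => φ (seqOf fun n => r n x)) μ := hφ.integrable mr br
    have eq1 : ∀ x, φ (seqOf fun n => f n x) =
        (φ (seqOf fun n => g n x) - φ (seqOf fun n => g n (u x))) +
        (φ (seqOf fun n => k n x) - φ (seqOf fun n => k n (v x))) +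
        φ (seqOf fun n => e n x) + φ (seqOf fun n => r n x) := by
      intro x
      rw [← map_sub, ← map_sub, ← map_add, ← map_add, ← map_add,
        ← seqOf_sub (fun n => bg n x) (fun n => bgu n x),
        ← seqOf_sub (fun n => bk n x) (fun n => bkv n x),
        ← seqOf_add (fun n => bd1 n x) (fun n => bd2 n x),
        ← seqOf_add (fun n => bd3 n x) (fun n => be n x),
        ← seqOf_add (fun n => bd4 n x) (fun n => br n x)]
      congr 2
      ext n
      simp only [hr']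
      ring
    have tg : ∫ x, φ (seqOf fun n => g n (u x)) ∂μ = ∫ x, φ (seqOf fun n => g n x) ∂μ :=
      hu.integral_comp' (g := fun x => φ (seqOf fun n => g n x))
    have tk : ∫ x, φ (seqOf fun n => k n (v x)) ∂μ = ∫ x, φ (seqOf fun n => k n x) ∂μ :=
      hv.integral_comp' (g := fun x => φ (seqOf fun n => k n x))
    have eq2 : ∫ x, φ (seqOf fun n => f n x) ∂μ =
        (∫ x, φ (seqOf fun n => e n x) ∂μ) + ∫ x, φ (seqOf fun n => r n x) ∂μ := by
      have j1 : Integrable (fun x => φ (seqOf fun n => g n x) - φ (seqOf fun n => g n (u x))) μ :=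
        ig.sub igu
      have j2 : Integrable (fun x => φ (seqOf fun n => k n x) - φ (seqOf fun n => k n (v x))) μ :=
        ik.sub ikv
      have j3 : Integrable (fun x => (φ (seqOf fun n => g n x) - φ (seqOf fun n => g n (u x))) +
        (φ (seqOf fun n => k n x) - φ (seqOf fun n => k n (v x)))) μ := j1.add j2
      have j4 : Integrable (fun x => (φ (seqOf fun n => g n x) - φ (seqOf fun n => g n (u x))) +
        (φ (seqOf fun n => k n x) - φ (seqOf fun n => k n (v x))) + φ (seqOf fun n => e n x)) μ :=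
        j3.add ie
      simp only [eq1]
      rw [integral_add j4 ir, integral_add j3 ie, integral_add j1 j2, integral_sub ig igu,
        integral_sub ik ikv, tg, tk]
      ring
    have he : |∫ x, φ (seqOf fun n => e n x) ∂μ| ≤ ‖φ‖ * ε := by
      have := norm_integral_le_of_norm_le_const (μ := μ) (f := fun x => φ (seqOf fun n => e n x))
        (C := ‖φ‖ * ε) (Filter.Eventually.of_forall fun x => abs_map_seqOf_le φ fun n => be n x)
      simpa using this
    have hrr : |∫ x, φ (seqOf fun n => r n x) ∂μ| ≤ (‖φ‖ + 1) * ε :=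
      abs_int_le mr br hε.le hr
    rw [eq2]
    refine (abs_add_le _ _).trans ?_
    linarith
  by_contra hne
  have hpos : 0 < |∫ x, φ (seqOf fun n => f n x) ∂μ| := abs_pos.2 hne
  set A := |∫ x, φ (seqOf fun n => f n x) ∂μ| with hA
  have hD : 0 < 2 * ‖φ‖ + 1 := by positivity
  have h1 := key (min 1 (A / (2 * (2 * ‖φ‖ + 1)))) (by positivity) (min_le_left _ _)
  have h2 : (2 * ‖φ‖ + 1) * min 1 (A / (2 * (2 * ‖φ‖ + 1))) ≤ A / 2 := by
    calc (2 * ‖φ‖ + 1) * min 1 (A / (2 * (2 * ‖φ‖ + 1)))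
        ≤ (2 * ‖φ‖ + 1) * (A / (2 * (2 * ‖φ‖ + 1))) := by gcongr; exact min_le_right _ _
      _ = A / 2 := by field_simp
  linarith

/-- Commutation. -/
theorem commutes {u v : X ≃ᵐ X} (hu : MeasurePreserving u μ μ) (hv : MeasurePreserving v μ μ)
    (hcob : ∀ ε : ℝ, 0 < ε → ε ≤ 1 → ∃ C : ℝ, 0 ≤ C ∧ ∀ f : X → ℝ, Measurable f →
      (∀ x, |f x| ≤ 1) → ∫ x, f x ∂μ = 0 → ∀ η : ℝ, 0 < η →
      ∃ g k e : X → ℝ, Measurable g ∧ Measurable k ∧ Measurable e ∧ (∀ x, |g x| ≤ C) ∧
      (∀ x, |k x| ≤ C) ∧ (∀ x, |e x| ≤ ε) ∧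
      ∫ x, |f x - ((g x - g (u x)) + (k x - k (v x)) + e x)| ∂μ ≤ η)
    {φ : Linf →L[ℝ] ℝ} (hφ : MeasOn μ φ) {f : ℕ → X → ℝ} (hf : ∀ n, Measurable (f n))
    {B : ℝ} (hB : ∀ n x, |f n x| ≤ B) :
    ∫ x, φ (seqOf fun n => f n x) ∂μ = φ (seqOf fun n => ∫ x, f n x ∂μ) := by
  have hne : (Nonempty X) := by
    by_contra h
    rw [not_nonempty_iff] at h
    have := measure_univ (μ := μ)
    rw [Set.univ_eq_empty_iff.2 h] at this
    simp at this
  obtain ⟨x0⟩ := hne
  have hB0 : 0 ≤ B := (abs_nonneg _).trans (hB 0 x0)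
  have hint : ∀ n, Integrable (f n) μ := fun n =>
    Integrable.of_bound (hf n).aestronglyMeasurable B (Filter.Eventually.of_forall (hB n))
  set a : ℕ → ℝ := fun n => ∫ x, f n x ∂μ with ha
  have haB : ∀ n, |a n| ≤ B := fun n => by
    have := norm_integral_le_of_norm_le_const (μ := μ) (f := f n) (C := B)
      (Filter.Eventually.of_forall (hB n))
    simpa using this
  set D : ℝ := 2 * B + 1 with hD
  have hD0 : 0 < D := by positivity
  have hz : ∫ x, φ (seqOf fun n => D⁻¹ * (f n x - a n)) ∂μ = 0 := by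
    refine int_eq_zero hu hv hcob hφ (f := fun n x => D⁻¹ * (f n x - a n))
      (fun n => ((hf n).sub_const _).const_mul _) (fun n x => ?_) (fun n => ?_)
    · rw [abs_mul, abs_of_pos (inv_pos.2 hD0), inv_mul_le_iff₀ hD0]
      calc |f n x - a n| ≤ |f n x| + |a n| := abs_sub _ _
        _ ≤ B + B := add_le_add (hB n x) (haB n)
        _ ≤ D * 1 := by rw [hD]; linarith
    · rw [integral_const_mul, integral_sub (hint n) (integrable_const _)]
      simp [ha]
  have bsub : ∀ n x, |f n x - a n| ≤ B + B := fun n x =>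
    (abs_sub _ _).trans (add_le_add (hB n x) (haB n))
  have e1 : ∀ x, φ (seqOf fun n => D⁻¹ * (f n x - a n))
      = D⁻¹ * (φ (seqOf fun n => f n x) - φ (seqOf a)) := by
    intro x
    rw [seqOf_smul (fun n => bsub n x), seqOf_sub (fun n => hB n x) haB, map_smul, map_sub,
      smul_eq_mul]
  simp only [e1] at hz
  rw [integral_const_mul, integral_sub (hφ.integrable hf hB) (integrable_const _)] at hz
  have h1 := (mul_eq_zero.1 hz).resolve_left (inv_ne_zero hD0.ne')
  simp only [integral_const, probReal_univ, one_smul] at h1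
  linarith

end

end Pool.Agent.MP_87323d_lc
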