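import Mathlib

/-!
Functionals on the space of bounded sequences: the definitions.
-/

set_option autoImplicit false

namespace Pool.Agent.MP_87323d_lc

open MeasureTheory

/-- The Banach space `ℓ^∞` of bounded real sequences. -/
abbrev Linf : Type := lp (fun _ : ℕ => ℝ) ⊤

open Classical in
/-- A bounded sequence as an element of `ℓ^∞` (and `0` if the sequence is not bounded). -/
noncomputable def seqOf (a : ℕ → ℝ) : Linf :=
  if h : BddAbove (Set.range fun n => ‖a n‖) then ⟨a, memℓp_infty h⟩ else 0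

/-- All sets of reals `{x | a < φ (1_{E_0}(x), 1_{E_1}(x), ...)}`, where the `E_n` are Borel sets of
reals and `a` is a real number, are Lebesgue measurable. -/
def SetsMeasurable (φ : Linf →L[ℝ] ℝ) : Prop :=
  ∀ E : ℕ → Set ℝ, (∀ n, MeasurableSet (E n)) → ∀ a : ℝ,
    NullMeasurableSet {x : ℝ | a < φ (seqOf fun n => (E n).indicator (fun _ => 1) x)} volume

/-- The functional `φ` is medial: for every probability space and every uniformly bounded sequence
of random variables `f_n`, the function `φ (f_0, f_1, ...)` is measurable (almost everywhere equal to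
a measurable function) and its expectation is `φ` of the sequence of the expectations. -/
def Medial (φ : Linf →L[ℝ] ℝ) : Prop :=
  ∀ (Ω : Type) [MeasurableSpace Ω] (P : Measure Ω) [IsProbabilityMeasure P] (f : ℕ → Ω → ℝ) (C : ℝ),
    (∀ n, Measurable (f n)) → (∀ n ω, |f n ω| ≤ C) →
    AEMeasurable (fun ω => φ (seqOf fun n => f n ω)) P ∧
      ∫ ω, φ (seqOf fun n => f n ω) ∂P = φ (seqOf fun n => ∫ ω, f n ω ∂P)

/-- Banach limits: `‖L‖ = 1`, `liminf x ≤ L x ≤ limsup x`, and `L` is invariant under the shift. -/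
def IsBanachLimit (L : Linf →L[ℝ] ℝ) : Prop :=
  ‖L‖ = 1 ∧
  (∀ x : Linf, Filter.liminf (fun n => x n) Filter.atTop ≤ L x ∧
    L x ≤ Filter.limsup (fun n => x n) Filter.atTop) ∧
  ∀ x : Linf, L (seqOf fun n => x (n + 1)) = L x

/-! ### Bounded sequences -/

theorem bdd_of_le {a : ℕ → ℝ} {C : ℝ} (h : ∀ n, |a n| ≤ C) :
    BddAbove (Set.range fun n => ‖a n‖) :=
  ⟨C, by rintro _ ⟨n, rfl⟩; exact h n⟩

theorem seqOf_apply {a : ℕ → ℝ} {C : ℝ} (h : ∀ n, |a n| ≤ C) (n : ℕ) : seqOf a n = a n := by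
  unfold seqOf
  rw [dif_pos (bdd_of_le h)]

theorem norm_seqOf_le {a : ℕ → ℝ} {C : ℝ} (h : ∀ n, |a n| ≤ C) : ‖seqOf a‖ ≤ C := by
  refine lp.norm_le_of_forall_le ((abs_nonneg _).trans (h 0)) fun n => ?_
  rw [seqOf_apply h]
  exact h n

theorem seqOf_coe (x : Linf) : seqOf (fun n => x n) = x := by
  have h : ∀ n, |x n| ≤ ‖x‖ := fun n => lp.norm_apply_le_norm (by simp) x n
  ext n
  exact seqOf_apply h n

theorem seqOf_add {a b : ℕ → ℝ} {C D : ℝ} (ha : ∀ n, |a n| ≤ C) (hb : ∀ n, |b n| ≤ D) :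
    seqOf (fun n => a n + b n) = seqOf a + seqOf b := by
  have h : ∀ n, |a n + b n| ≤ C + D := fun n => (abs_add_le _ _).trans (add_le_add (ha n) (hb n))
  ext n
  rw [seqOf_apply h]
  simp [seqOf_apply ha, seqOf_apply hb]

theorem seqOf_smul {a : ℕ → ℝ} {C : ℝ} (ha : ∀ n, |a n| ≤ C) (c : ℝ) :
    seqOf (fun n => c * a n) = c • seqOf a := by
  have h : ∀ n, |c * a n| ≤ |c| * C := fun n => by
    rw [abs_mul]; exact mul_le_mul_of_nonneg_left (ha n) (abs_nonneg _)
  ext n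
  rw [seqOf_apply h]
  simp [seqOf_apply ha]

theorem seqOf_sub {a b : ℕ → ℝ} {C D : ℝ} (ha : ∀ n, |a n| ≤ C) (hb : ∀ n, |b n| ≤ D) :
    seqOf (fun n => a n - b n) = seqOf a - seqOf b := by
  have h : ∀ n, |a n - b n| ≤ C + D := fun n => (abs_sub _ _).trans (add_le_add (ha n) (hb n))
  ext n
  rw [seqOf_apply h]
  simp [seqOf_apply ha, seqOf_apply hb]

theorem abs_map_seqOf_le (φ : Linf →L[ℝ] ℝ) {a : ℕ → ℝ} {C : ℝ} (h : ∀ n, |a n| ≤ C) :
    |φ (seqOf a)| ≤ ‖φ‖ * C :=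
  (φ.le_opNorm _).trans (mul_le_mul_of_nonneg_left (norm_seqOf_le h) (norm_nonneg _))

end Pool.Agent.MP_87323d_lc
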