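import Mathlib

/-!
Duality: a bounded function with mean zero is a sum of two coboundaries of functions with bounds that
do not depend on the function, up to small errors.
-/

set_option autoImplicit false

namespace Pool.Agent.MP_87323d_lc

open MeasureTheory

section

variable {X : Type} [MeasurableSpace X] {μ : Measure X} [IsProbabilityMeasure μ]

/-- Change of variables. -/
theorem int_cob {u : X ≃ᵐ X} (hu : MeasurePreserving u μ μ) {h g : X → ℝ} {C : ℝ}
    (hh : Integrable h μ) (hg : Measurable g) (hgC : ∀ x, |g x| ≤ C) :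
    ∫ x, h x * (g x - g (u x)) ∂μ = ∫ x, (h x - h (u.symm x)) * g x ∂μ := by
  have hus : MeasurePreserving u.symm μ μ := hu.symm
  have i1 : Integrable (fun x => h x * g x) μ :=
    hh.mul_bdd hg.aestronglyMeasurable (Filter.Eventually.of_forall hgC)
  have i2 : Integrable (fun x => h x * g (u x)) μ :=
    hh.mul_bdd (hg.comp u.measurable).aestronglyMeasurable
      (Filter.Eventually.of_forall fun x => hgC (u x))
  have i3 : Integrable (fun x => h (u.symm x) * g x) μ :=
    (hus.integrable_comp_of_integrable hh).mul_bdd hg.aestronglyMeasurable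
      (Filter.Eventually.of_forall hgC)
  have e1 : ∫ x, h x * g (u x) ∂μ = ∫ x, h (u.symm x) * g x ∂μ := by
    rw [← hu.integral_comp' (g := fun x => h (u.symm x) * g x)]
    simp
  have e2 : ∀ x, h x * (g x - g (u x)) = h x * g x - h x * g (u x) := fun x => by ring
  have e3 : ∀ x, (h x - h (u.symm x)) * g x = h x * g x - h (u.symm x) * g x := fun x => by ring
  simp only [e2, e3]
  rw [integral_sub i1 i2, integral_sub i1 i3, e1]

theorem int_abs_symm {u : X ≃ᵐ X} (hu : MeasurePreserving u μ μ) (h : X → ℝ) :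
    ∫ x, |h x - h (u.symm x)| ∂μ = ∫ x, |h x - h (u x)| ∂μ := by
  rw [← hu.integral_comp' (g := fun x => |h x - h (u.symm x)|)]
  congr 1
  ext x
  rw [u.symm_apply_apply, abs_sub_comm]

theorem int_abs_le_norm (w : Lp ℝ 2 μ) : ∫ x, |w x| ∂μ ≤ ‖w‖ := by
  have hw : MemLp w 2 μ := Lp.memLp w
  have hwi : Integrable w μ := hw.integrable (by norm_num)
  have h1 : ‖w‖ ^ 2 = ∫ x, w x ^ 2 ∂μ := by
    rw [← real_inner_self_eq_norm_sq, L2.inner_def]
    congr 1
    ext x
    simp [sq]
  have h2 : (∫ x, |w x| ∂μ) ^ 2 ≤ ‖w‖ ^ 2 := by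
    rw [h1]
    set m := ∫ x, |w x| ∂μ with hm
    have h3 : 0 ≤ ∫ x, (|w x| - m) ^ 2 ∂μ := integral_nonneg fun x => sq_nonneg _
    have i1 : Integrable (fun x => w x ^ 2) μ := hw.integrable_sq
    have i2 : Integrable (fun x => 2 * m * |w x|) μ := hwi.abs.const_mul _
    have i3 : Integrable (fun x => w x ^ 2 - 2 * m * |w x|) μ := i1.sub i2
    have h4 : ∫ x, (|w x| - m) ^ 2 ∂μ = (∫ x, w x ^ 2 ∂μ) - m ^ 2 := by
      have e : ∀ x, (|w x| - m) ^ 2 = (w x ^ 2 - 2 * m * |w x|) + m ^ 2 := fun x => by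
        rw [← sq_abs (w x)]; ring
      simp only [e]
      rw [integral_add i3 (integrable_const _), integral_sub i1 i2, integral_const_mul, ← hm]
      simp
      ring
    linarith
  exact (sq_le_sq₀ (integral_nonneg fun x => abs_nonneg _) (norm_nonneg _)).1 h2

theorem coboundary {u v : X ≃ᵐ X} (hu : MeasurePreserving u μ μ) (hv : MeasurePreserving v μ μ)
    {C ε : ℝ} (hC : 0 ≤ C) (hε : 0 ≤ ε)
    (hgap : ∀ h : X → ℝ, Integrable h μ → ∫ x, |h x - ∫ y, h y ∂μ| ∂μ ≤ ε * (∫ x, |h x| ∂μ) +
      C * ((∫ x, |h x - h (u x)| ∂μ) + ∫ x, |h x - h (v x)| ∂μ))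
    {f : X → ℝ} (hf : Measurable f) (hf1 : ∀ x, |f x| ≤ 1) (hf0 : ∫ x, f x ∂μ = 0)
    {η : ℝ} (hη : 0 < η) :
    ∃ g k e : X → ℝ, Measurable g ∧ Measurable k ∧ Measurable e ∧ (∀ x, |g x| ≤ C) ∧
      (∀ x, |k x| ≤ C) ∧ (∀ x, |e x| ≤ ε) ∧
      ∫ x, |f x - ((g x - g (u x)) + (k x - k (v x)) + e x)| ∂μ ≤ η := by
  set K : Set (Lp ℝ 2 μ) := {F | ∃ g k e : X → ℝ, (Measurable g ∧ Measurable k ∧ Measurable e ∧
    (∀ x, |g x| ≤ C) ∧ (∀ x, |k x| ≤ C) ∧ (∀ x, |e x| ≤ ε)) ∧
    F =ᵐ[μ] fun x => (g x - g (u x)) + (k x - k (v x)) + e x} with hK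
  have hconv : Convex ℝ K := by
    rintro F ⟨g, k, e, ⟨m1, m2, m3, b1, b2, b3⟩, hF⟩ F' ⟨g', k', e', ⟨m1', m2', m3', b1', b2', b3'⟩, hF'⟩
      a b ha hb hab
    have hb' : ∀ {x y D : ℝ}, |x| ≤ D → |y| ≤ D → |a * x + b * y| ≤ D := by
      intro x y D hx hy
      calc |a * x + b * y| ≤ |a * x| + |b * y| := abs_add_le _ _
        _ = a * |x| + b * |y| := by rw [abs_mul, abs_mul, abs_of_nonneg ha, abs_of_nonneg hb]
        _ ≤ a * D + b * D := by gcongr
        _ = D := by rw [← add_mul, hab, one_mul]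
    refine ⟨fun x => a * g x + b * g' x, fun x => a * k x + b * k' x, fun x => a * e x + b * e' x,
      ⟨(m1.const_mul a).add (m1'.const_mul b), (m2.const_mul a).add (m2'.const_mul b),
        (m3.const_mul a).add (m3'.const_mul b), fun x => hb' (b1 x) (b1' x),
        fun x => hb' (b2 x) (b2' x), fun x => hb' (b3 x) (b3' x)⟩, ?_⟩
    filter_upwards [hF, hF', Lp.coeFn_add (a • F) (b • F'), Lp.coeFn_smul a F, Lp.coeFn_smul b F']
      with x h1 h2 h3 h4 h5
    rw [h3, Pi.add_apply, h4, h5, Pi.smul_apply, Pi.smul_apply, h1, h2]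
    simp only [smul_eq_mul]
    ring
  have hfL : MemLp f 2 μ := MemLp.of_bound hf.aestronglyMeasurable 1
    (Filter.Eventually.of_forall hf1)
  set f0 : Lp ℝ 2 μ := hfL.toLp f with hf0'
  by_cases hmem : f0 ∈ closure K
  · obtain ⟨F, ⟨g, k, e, ⟨m1, m2, m3, b1, b2, b3⟩, hF⟩, hd⟩ := Metric.mem_closure_iff.1 hmem η hη
    refine ⟨g, k, e, m1, m2, m3, b1, b2, b3, ?_⟩
    rw [dist_eq_norm] at hd
    refine le_trans ?_ ((int_abs_le_norm (f0 - F)).trans hd.le)
    refine le_of_eq (integral_congr_ae ?_)
    filter_upwards [hF, hfL.coeFn_toLp, Lp.coeFn_sub f0 F] with x h1 h2 h3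
    rw [h3, Pi.sub_apply, h1, hf0', h2]
  · exfalso
    obtain ⟨ℓ, r, hr1, hr2⟩ := geometric_hahn_banach_closed_point hconv.closure isClosed_closure hmem
    set h : Lp ℝ 2 μ := (InnerProductSpace.toDual ℝ (Lp ℝ 2 μ)).symm ℓ with hh
    have hℓ : ∀ F : Lp ℝ 2 μ, ℓ F = ∫ x, h x * F x ∂μ := by
      intro F
      have h1 : ℓ F = inner ℝ h F := by
        rw [hh, InnerProductSpace.toDual_symm_apply]
      rw [h1, L2.inner_def]
      congr 1
      ext x
      simp [mul_comm]
    have hm : Measurable h := (Lp.stronglyMeasurable h).measurable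
    have hi : Integrable h μ := (Lp.memLp h).integrable (by norm_num)
    set g : X → ℝ := fun x => if 0 ≤ h x - h (u.symm x) then C else -C with hg
    set k : X → ℝ := fun x => if 0 ≤ h x - h (v.symm x) then C else -C with hk
    set e : X → ℝ := fun x => if 0 ≤ h x then ε else -ε with he
    have mg : Measurable g := Measurable.ite
      (measurableSet_le measurable_const (hm.sub (hm.comp u.symm.measurable)))
      measurable_const measurable_const
    have mk : Measurable k := Measurable.ite
      (measurableSet_le measurable_const (hm.sub (hm.comp v.symm.measurable)))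
      measurable_const measurable_const
    have me : Measurable e := Measurable.ite (measurableSet_le measurable_const hm)
      measurable_const measurable_const
    have bg : ∀ x, |g x| ≤ C := fun x => by
      simp only [hg]; split_ifs <;> simp [abs_of_nonneg hC]
    have bk : ∀ x, |k x| ≤ C := fun x => by
      simp only [hk]; split_ifs <;> simp [abs_of_nonneg hC]
    have be : ∀ x, |e x| ≤ ε := fun x => by
      simp only [he]; split_ifs <;> simp [abs_of_nonneg hε]
    set Ff : X → ℝ := fun x => (g x - g (u x)) + (k x - k (v x)) + e x with hFf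
    have mF : Measurable Ff := ((mg.sub (mg.comp u.measurable)).add
      (mk.sub (mk.comp v.measurable))).add me
    have bF : ∀ x, ‖Ff x‖ ≤ C + C + (C + C) + ε := fun x => by
      have h1 : |g x - g (u x)| ≤ C + C := (abs_sub _ _).trans (add_le_add (bg x) (bg _))
      have h2 : |k x - k (v x)| ≤ C + C := (abs_sub _ _).trans (add_le_add (bk x) (bk _))
      refine (abs_add_le _ _).trans (add_le_add ((abs_add_le _ _).trans (add_le_add h1 h2)) (be x))
    have hFL : MemLp Ff 2 μ := MemLp.of_bound mF.aestronglyMeasurable _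
      (Filter.Eventually.of_forall bF)
    have hFK : hFL.toLp Ff ∈ closure K :=
      subset_closure ⟨g, k, e, ⟨mg, mk, me, bg, bk, be⟩, hFL.coeFn_toLp⟩
    have h1 := hr1 _ hFK
    have h2 : ℓ (hFL.toLp Ff) = ∫ x, h x * Ff x ∂μ := by
      rw [hℓ]
      refine integral_congr_ae ?_
      filter_upwards [hFL.coeFn_toLp] with x hx
      rw [hx]
    have h3 : ℓ f0 = ∫ x, h x * f x ∂μ := by
      rw [hℓ]
      refine integral_congr_ae ?_
      filter_upwards [hfL.coeFn_toLp] with x hx
      rw [hf0', hx]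
    -- the value at the test function
    have ig : Integrable (fun x => h x * (g x - g (u x))) μ :=
      hi.mul_bdd (mg.sub (mg.comp u.measurable)).aestronglyMeasurable
        (Filter.Eventually.of_forall fun x => (abs_sub _ _).trans (add_le_add (bg x) (bg _)))
    have ik : Integrable (fun x => h x * (k x - k (v x))) μ :=
      hi.mul_bdd (mk.sub (mk.comp v.measurable)).aestronglyMeasurable
        (Filter.Eventually.of_forall fun x => (abs_sub _ _).trans (add_le_add (bk x) (bk _)))
    have ie : Integrable (fun x => h x * e x) μ :=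
      hi.mul_bdd me.aestronglyMeasurable (Filter.Eventually.of_forall be)
    have h4 : ∫ x, h x * Ff x ∂μ = C * (∫ x, |h x - h (u x)| ∂μ) + C * (∫ x, |h x - h (v x)| ∂μ)
        + ε * ∫ x, |h x| ∂μ := by
      have e1 : ∀ x, h x * Ff x = (h x * (g x - g (u x)) + h x * (k x - k (v x))) + h x * e x :=
        fun x => by simp only [hFf]; ring
      have igk : Integrable (fun x => h x * (g x - g (u x)) + h x * (k x - k (v x))) μ := ig.add ik
      simp only [e1]
      rw [integral_add igk ie, integral_add ig ik, int_cob hu hi mg bg, int_cob hv hi mk bk,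
        ← int_abs_symm hu, ← int_abs_symm hv, ← integral_const_mul, ← integral_const_mul,
        ← integral_const_mul]
      congr 1
      · congr 1
        · congr 1
          ext x
          simp only [hg]
          split_ifs with hx
          · rw [abs_of_nonneg hx]; ring
          · rw [abs_of_neg (not_le.1 hx)]; ring
        · congr 1
          ext x
          simp only [hk]
          split_ifs with hx
          · rw [abs_of_nonneg hx]; ring
          · rw [abs_of_neg (not_le.1 hx)]; ring
      · congr 1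
        ext x
        simp only [he]
        split_ifs with hx
        · rw [abs_of_nonneg hx]; ring
        · rw [abs_of_neg (not_le.1 hx)]; ring
    have h5 : ∫ x, h x * f x ∂μ ≤ ∫ x, |h x - ∫ y, h y ∂μ| ∂μ := by
      have i1 : Integrable (fun x => h x * f x) μ :=
        hi.mul_bdd hf.aestronglyMeasurable (Filter.Eventually.of_forall hf1)
      have i2 : Integrable (fun x => (∫ y, h y ∂μ) * f x) μ :=
        (hfL.integrable (by norm_num)).const_mul _
      have e1 : ∫ x, h x * f x ∂μ = ∫ x, (h x * f x - (∫ y, h y ∂μ) * f x) ∂μ := by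
        rw [integral_sub i1 i2, integral_const_mul, hf0]; simp
      rw [e1]
      refine integral_mono (i1.sub i2) (hi.sub (integrable_const _)).abs fun x => ?_
      show h x * f x - (∫ y, h y ∂μ) * f x ≤ |h x - ∫ y, h y ∂μ|
      have e2 : h x * f x - (∫ y, h y ∂μ) * f x = (h x - ∫ y, h y ∂μ) * f x := by ring
      rw [e2]
      calc (h x - ∫ y, h y ∂μ) * f x ≤ |(h x - ∫ y, h y ∂μ) * f x| := le_abs_self _
        _ = |h x - ∫ y, h y ∂μ| * |f x| := abs_mul _ _
        _ ≤ |h x - ∫ y, h y ∂μ| * 1 := by gcongr; exact hf1 x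
        _ = _ := mul_one _
    have h6 := hgap h hi
    rw [h2, h4] at h1
    rw [h3] at hr2
    linarith

end

end Pool.Agent.MP_87323d_lc
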