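import Mathlib

/-!
From a spectral gap in `L²` to an inequality in `L¹`.
-/

set_option autoImplicit false

namespace Pool.Agent.MP_87323d_lc

open MeasureTheory

section

variable {X : Type} [MeasurableSpace X] {μ : Measure X} [IsProbabilityMeasure μ]

theorem sqrt_sub_sqrt_sq_le {a b : ℝ} (ha : 0 ≤ a) (hb : 0 ≤ b) :
    (√a - √b) ^ 2 ≤ |a - b| := by
  have h1 : a = √a ^ 2 := (Real.sq_sqrt ha).symm
  have h2 : b = √b ^ 2 := (Real.sq_sqrt hb).symm
  have h3 : a - b = (√a - √b) * (√a + √b) := by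
    nth_rewrite 1 [h1, h2]; ring
  rw [h3, abs_mul, ← sq_abs, sq]
  refine mul_le_mul_of_nonneg_left ?_ (abs_nonneg _)
  rw [abs_of_nonneg (by positivity : 0 ≤ √a + √b), abs_le]
  constructor <;> linarith [Real.sqrt_nonneg a, Real.sqrt_nonneg b]

theorem int_lin {f g : X → ℝ} (hf : Integrable f μ) (hg : Integrable g μ) (a b c : ℝ) :
    ∫ x, (a * f x + b * g x + c) ∂μ = a * (∫ x, f x ∂μ) + b * (∫ x, g x ∂μ) + c := by
  have h1 : Integrable (fun x => a * f x) μ := hf.const_mul a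
  have h2 : Integrable (fun x => b * g x) μ := hg.const_mul b
  have h3 : Integrable (fun x => a * f x + b * g x) μ := h1.add h2
  rw [integral_add h3 (integrable_const c), integral_add h1 h2, integral_const_mul,
    integral_const_mul]
  simp

/-- The `L¹` inequality for nonnegative functions. -/
theorem l1_gap_nonneg {u v : X ≃ᵐ X} (hu : MeasurePreserving u μ μ) (hv : MeasurePreserving v μ μ)
    (hgap : ∀ ξ : X → ℝ, MemLp ξ 2 μ → ∫ x, ξ x ∂μ = 0 → ∫ x, ξ x ^ 2 ∂μ ≤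
      648 * ((∫ x, (ξ x - ξ (u x)) ^ 2 ∂μ) + ∫ x, (ξ x - ξ (v x)) ^ 2 ∂μ))
    {h : X → ℝ} (hh : Integrable h μ) (h0 : ∀ x, 0 ≤ h x) {ε : ℝ} (hε : 0 < ε) (hε1 : ε ≤ 1) :
    ∫ x, |h x - ∫ y, h y ∂μ| ∂μ ≤ ε * (∫ x, h x ∂μ) +
      1296 / ε * ((∫ x, |h x - h (u x)| ∂μ) + ∫ x, |h x - h (v x)| ∂μ) := by
  set ξ : X → ℝ := fun x => √(h x) with hξ
  have hsq : ∀ x, ξ x ^ 2 = h x := fun x => Real.sq_sqrt (h0 x)
  have hmeas : AEStronglyMeasurable ξ μ :=
    (Real.continuous_sqrt.comp_aestronglyMeasurable hh.1)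
  have hL : MemLp ξ 2 μ := by
    rw [memLp_two_iff_integrable_sq hmeas]
    simpa [hsq] using hh
  have hξi : Integrable ξ μ := hL.integrable (by norm_num)
  set c : ℝ := ∫ x, ξ x ∂μ with hc
  set I : ℝ := ∫ x, h x ∂μ with hI
  have hLc : MemLp (fun x => ξ x - c) 2 μ := hL.sub (memLp_const c)
  have hLp : MemLp (fun x => ξ x + c) 2 μ := hL.add (memLp_const c)
  have hmean : ∫ x, (ξ x - c) ∂μ = 0 := by
    rw [integral_sub hξi (integrable_const c)]; simp [hc]
  have hg := hgap _ hLc hmean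
  have hhu : Integrable (fun x => h (u x)) μ := hu.integrable_comp_of_integrable hh
  have hhv : Integrable (fun x => h (v x)) μ := hv.integrable_comp_of_integrable hh
  have hUsq : ∫ x, ((ξ x - c) - (ξ (u x) - c)) ^ 2 ∂μ ≤ ∫ x, |h x - h (u x)| ∂μ := by
    refine integral_mono_of_nonneg (Filter.Eventually.of_forall fun x => sq_nonneg _)
      (hh.sub hhu).abs (Filter.Eventually.of_forall fun x => ?_)
    have := sqrt_sub_sqrt_sq_le (h0 x) (h0 (u x))
    calc ((ξ x - c) - (ξ (u x) - c)) ^ 2 = (√(h x) - √(h (u x))) ^ 2 := by simp [hξ]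
      _ ≤ _ := this
  have hVsq : ∫ x, ((ξ x - c) - (ξ (v x) - c)) ^ 2 ∂μ ≤ ∫ x, |h x - h (v x)| ∂μ := by
    refine integral_mono_of_nonneg (Filter.Eventually.of_forall fun x => sq_nonneg _)
      (hh.sub hhv).abs (Filter.Eventually.of_forall fun x => ?_)
    have := sqrt_sub_sqrt_sq_le (h0 x) (h0 (v x))
    calc ((ξ x - c) - (ξ (v x) - c)) ^ 2 = (√(h x) - √(h (v x))) ^ 2 := by simp [hξ]
      _ ≤ _ := this
  set V : ℝ := ∫ x, (ξ x - c) ^ 2 ∂μ with hV
  have hV0 : 0 ≤ V := integral_nonneg fun x => sq_nonneg _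
  have hVi : V = I - c ^ 2 := by
    have e : ∀ x, (ξ x - c) ^ 2 = 1 * h x + (-2 * c) * ξ x + c ^ 2 := fun x => by
      rw [← hsq x]; ring
    rw [hV]
    simp only [e]
    rw [int_lin hh hξi, ← hc, ← hI]
    ring
  have hPi : ∫ x, (ξ x + c) ^ 2 ∂μ = I + 3 * c ^ 2 := by
    have e : ∀ x, (ξ x + c) ^ 2 = 1 * h x + 2 * c * ξ x + c ^ 2 := fun x => by
      rw [← hsq x]; ring
    simp only [e]
    rw [int_lin hh hξi, ← hc, ← hI]
    ring
  have hpt : ∀ x, |h x - I| ≤ 1 / ε * (ξ x - c) ^ 2 + ε / 4 * (ξ x + c) ^ 2 + V := by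
    intro x
    have e1 : h x - I = (ξ x - c) * (ξ x + c) - V := by
      rw [hVi, ← hsq x]; ring
    rw [e1]
    refine (abs_sub _ _).trans ?_
    rw [abs_of_nonneg hV0, abs_mul]
    gcongr
    have e2 : 1 / ε * (ξ x - c) ^ 2 + ε / 4 * (ξ x + c) ^ 2 - |ξ x - c| * |ξ x + c|
        = 1 / ε * (|ξ x - c| - ε / 2 * |ξ x + c|) ^ 2 := by
      rw [← sq_abs (ξ x - c), ← sq_abs (ξ x + c)]
      field_simp
      ring
    have e3 : 0 ≤ 1 / ε * (|ξ x - c| - ε / 2 * |ξ x + c|) ^ 2 := by positivity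
    linarith
  have hint : ∫ x, |h x - I| ∂μ ≤ 1 / ε * V + ε / 4 * (I + 3 * c ^ 2) + V := by
    have i1 : Integrable (fun x => (ξ x - c) ^ 2) μ := hLc.integrable_sq
    have i2 : Integrable (fun x => (ξ x + c) ^ 2) μ := hLp.integrable_sq
    calc ∫ x, |h x - I| ∂μ
        ≤ ∫ x, (1 / ε * (ξ x - c) ^ 2 + ε / 4 * (ξ x + c) ^ 2 + V) ∂μ :=
          integral_mono (hh.sub (integrable_const I)).abs
            (((i1.const_mul _).add (i2.const_mul _)).add (integrable_const V)) hpt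
      _ = _ := by
          rw [int_lin i1 i2, hPi]
  have hVD : V ≤ 648 * ((∫ x, |h x - h (u x)| ∂μ) + ∫ x, |h x - h (v x)| ∂μ) := by
    refine hg.trans ?_
    gcongr
  have hone : V ≤ 1 / ε * V := by
    have : 1 ≤ 1 / ε := by rw [le_div_iff₀ hε]; linarith
    nlinarith
  have hc2 : c ^ 2 ≤ I := by linarith
  have hI0 : 0 ≤ I := integral_nonneg h0
  calc ∫ x, |h x - I| ∂μ ≤ 1 / ε * V + ε / 4 * (I + 3 * c ^ 2) + V := hint
    _ ≤ 1 / ε * V + ε / 4 * (I + 3 * I) + 1 / ε * V := by gcongr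
    _ = ε * I + 2 / ε * V := by ring
    _ ≤ ε * I + 2 / ε * (648 * ((∫ x, |h x - h (u x)| ∂μ) + ∫ x, |h x - h (v x)| ∂μ)) := by gcongr
    _ = _ := by ring

/-- The `L¹` inequality. -/
theorem l1_gap {u v : X ≃ᵐ X} (hu : MeasurePreserving u μ μ) (hv : MeasurePreserving v μ μ)
    (hgap : ∀ ξ : X → ℝ, MemLp ξ 2 μ → ∫ x, ξ x ∂μ = 0 → ∫ x, ξ x ^ 2 ∂μ ≤
      648 * ((∫ x, (ξ x - ξ (u x)) ^ 2 ∂μ) + ∫ x, (ξ x - ξ (v x)) ^ 2 ∂μ))
    {h : X → ℝ} (hh : Integrable h μ) {ε : ℝ} (hε : 0 < ε) (hε1 : ε ≤ 1) :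
    ∫ x, |h x - ∫ y, h y ∂μ| ∂μ ≤ ε * (∫ x, |h x| ∂μ) +
      1296 / ε * ((∫ x, |h x - h (u x)| ∂μ) + ∫ x, |h x - h (v x)| ∂μ) := by
  set p : X → ℝ := fun x => max (h x) 0 with hp
  set q : X → ℝ := fun x => max (-h x) 0 with hq
  have hpi : Integrable p μ := hh.pos_part
  have hqi : Integrable q μ := hh.neg_part
  have hpu : Integrable (fun x => p (u x)) μ := hu.integrable_comp_of_integrable hpi
  have hpv : Integrable (fun x => p (v x)) μ := hv.integrable_comp_of_integrable hpi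
  have hqu : Integrable (fun x => q (u x)) μ := hu.integrable_comp_of_integrable hqi
  have hqv : Integrable (fun x => q (v x)) μ := hv.integrable_comp_of_integrable hqi
  have e1 : ∀ x, h x = p x - q x := fun x => by
    simp only [hp, hq]
    rcases le_total (h x) 0 with h1 | h1
    · rw [max_eq_right h1, max_eq_left (by linarith)]; ring
    · rw [max_eq_left h1, max_eq_right (by linarith)]; ring
  have e2 : ∀ x, |h x| = p x + q x := fun x => by
    simp only [hp, hq]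
    rcases le_total (h x) 0 with h1 | h1
    · rw [max_eq_right h1, max_eq_left (by linarith), abs_of_nonpos h1]; ring
    · rw [max_eq_left h1, max_eq_right (by linarith), abs_of_nonneg h1]; ring
  have e3 : ∀ x y, |p x - p y| + |q x - q y| = |h x - h y| := fun x y => by
    simp only [hp, hq]
    rcases le_total (h x) 0 with h1 | h1 <;> rcases le_total (h y) 0 with h2 | h2
    · rw [max_eq_right h1, max_eq_right h2, max_eq_left (by linarith : 0 ≤ -h x),
        max_eq_left (by linarith : 0 ≤ -h y), sub_self, abs_zero, zero_add,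
        ← abs_neg]
      congr 1; ring
    · rw [max_eq_right h1, max_eq_left h2, max_eq_left (by linarith : 0 ≤ -h x),
        max_eq_right (by linarith : -h y ≤ 0), abs_of_nonpos (by linarith : 0 - h y ≤ 0),
        abs_of_nonneg (by linarith : 0 ≤ -h x - 0), abs_of_nonpos (by linarith : h x - h y ≤ 0)]
      ring
    · rw [max_eq_left h1, max_eq_right h2, max_eq_right (by linarith : -h x ≤ 0),
        max_eq_left (by linarith : 0 ≤ -h y), abs_of_nonneg (by linarith : 0 ≤ h x - 0),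
        abs_of_nonpos (by linarith : 0 - -h y ≤ 0), abs_of_nonneg (by linarith : 0 ≤ h x - h y)]
      ring
    · rw [max_eq_left h1, max_eq_left h2, max_eq_right (by linarith : -h x ≤ 0),
        max_eq_right (by linarith : -h y ≤ 0), sub_self, abs_zero, add_zero]
  have hP := l1_gap_nonneg hu hv hgap hpi (fun x => le_max_right _ _) hε hε1
  have hQ := l1_gap_nonneg hu hv hgap hqi (fun x => le_max_right _ _) hε hε1
  have s1 : ∫ x, |h x - ∫ y, h y ∂μ| ∂μ
      ≤ (∫ x, |p x - ∫ y, p y ∂μ| ∂μ) + ∫ x, |q x - ∫ y, q y ∂μ| ∂μ := by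
    have j1 : Integrable (fun x => |p x - ∫ y, p y ∂μ|) μ := (hpi.sub (integrable_const _)).abs
    have j2 : Integrable (fun x => |q x - ∫ y, q y ∂μ|) μ := (hqi.sub (integrable_const _)).abs
    rw [← integral_add j1 j2]
    refine integral_mono (hh.sub (integrable_const _)).abs
      ((hpi.sub (integrable_const _)).abs.add (hqi.sub (integrable_const _)).abs) fun x => ?_
    have : ∫ y, h y ∂μ = (∫ y, p y ∂μ) - ∫ y, q y ∂μ := by
      rw [← integral_sub hpi hqi]; congr 1; ext x; exact e1 x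
    show |h x - ∫ y, h y ∂μ| ≤ |p x - ∫ y, p y ∂μ| + |q x - ∫ y, q y ∂μ|
    rw [this, e1 x]
    calc |p x - q x - ((∫ y, p y ∂μ) - ∫ y, q y ∂μ)|
        = |(p x - ∫ y, p y ∂μ) - (q x - ∫ y, q y ∂μ)| := by congr 1; ring
      _ ≤ _ := abs_sub _ _
  have s2 : ∫ x, |h x| ∂μ = (∫ x, p x ∂μ) + ∫ x, q x ∂μ := by
    rw [← integral_add hpi hqi]; congr 1; ext x; exact e2 x
  have s3 : ∫ x, |h x - h (u x)| ∂μ = (∫ x, |p x - p (u x)| ∂μ) + ∫ x, |q x - q (u x)| ∂μ := by
    have j1 : Integrable (fun x => |p x - p (u x)|) μ := (hpi.sub hpu).abs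
    have j2 : Integrable (fun x => |q x - q (u x)|) μ := (hqi.sub hqu).abs
    rw [← integral_add j1 j2]
    congr 1; ext x; exact (e3 x (u x)).symm
  have s4 : ∫ x, |h x - h (v x)| ∂μ = (∫ x, |p x - p (v x)| ∂μ) + ∫ x, |q x - q (v x)| ∂μ := by
    have j1 : Integrable (fun x => |p x - p (v x)|) μ := (hpi.sub hpv).abs
    have j2 : Integrable (fun x => |q x - q (v x)|) μ := (hqi.sub hqv).abs
    rw [← integral_add j1 j2]
    congr 1; ext x; exact (e3 x (v x)).symm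
  rw [s2, s3, s4]
  linarith

end

end Pool.Agent.MP_87323d_lc
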