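import Pool.Agent.Lib.MP_87323d_lc.Defs

/-!
From a medial functional outside `ℓ¹` to a medial Banach limit.
-/

set_option autoImplicit false

namespace Pool.Agent.MP_87323d_lc

open MeasureTheory Filter Topology

/-! ### Closure properties -/

theorem integrable_medial {φ : Linf →L[ℝ] ℝ} (h : Medial φ) {Ω : Type} [MeasurableSpace Ω]
    (P : Measure Ω) [IsProbabilityMeasure P] {f : ℕ → Ω → ℝ} {C : ℝ} (hf : ∀ n, Measurable (f n))
    (hC : ∀ n ω, |f n ω| ≤ C) : Integrable (fun ω => φ (seqOf fun n => f n ω)) P :=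
  Integrable.of_bound (h Ω P f C hf hC).1.aestronglyMeasurable (‖φ‖ * C)
    (Eventually.of_forall fun ω => abs_map_seqOf_le φ fun n => hC n ω)

theorem Medial.sub {φ ψ : Linf →L[ℝ] ℝ} (h1 : Medial φ) (h2 : Medial ψ) : Medial (φ - ψ) := by
  intro Ω _ P _ f C hf hC
  refine ⟨(h1 Ω P f C hf hC).1.sub (h2 Ω P f C hf hC).1, ?_⟩
  simp only [sub_apply]
  rw [integral_sub (integrable_medial h1 P hf hC) (integrable_medial h2 P hf hC),
    (h1 Ω P f C hf hC).2, (h2 Ω P f C hf hC).2]

theorem Medial.smul {φ : Linf →L[ℝ] ℝ} (h : Medial φ) (c : ℝ) : Medial (c • φ) := by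
  intro Ω _ P _ f C hf hC
  refine ⟨(h Ω P f C hf hC).1.const_mul c, ?_⟩
  simp only [smul_apply, smul_eq_mul]
  rw [integral_const_mul, (h Ω P f C hf hC).2]

/-- Norm limits of medial functionals are medial. -/
theorem Medial.of_tendsto {L : ℕ → Linf →L[ℝ] ℝ} {L0 : Linf →L[ℝ] ℝ} (h : ∀ k, Medial (L k))
    (hL : Tendsto L atTop (𝓝 L0)) : Medial L0 := by
  intro Ω _ P _ f C hf hC
  have hpt : ∀ x : Linf, Tendsto (fun k => L k x) atTop (𝓝 (L0 x)) := fun x =>
    ((ContinuousLinearMap.apply ℝ ℝ x).continuous.tendsto L0).comp hL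
  obtain ⟨B, hB⟩ : ∃ B, ∀ k, ‖L k‖ ≤ B := by
    obtain ⟨B, hB⟩ := hL.norm.bddAbove_range
    exact ⟨B, fun k => hB ⟨k, rfl⟩⟩
  by_cases hne : Nonempty Ω
  · obtain ⟨ω0⟩ := hne
    have hC0 : 0 ≤ C := (abs_nonneg _).trans (hC 0 ω0)
    have hm : AEMeasurable (fun ω => L0 (seqOf fun n => f n ω)) P :=
      aemeasurable_of_tendsto_metrizable_ae atTop (fun k => (h k Ω P f C hf hC).1)
        (Eventually.of_forall fun ω => hpt _)
    refine ⟨hm, ?_⟩
    have h1 : Tendsto (fun k => ∫ ω, L k (seqOf fun n => f n ω) ∂P) atTop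
        (𝓝 (∫ ω, L0 (seqOf fun n => f n ω) ∂P)) := by
      refine tendsto_integral_of_dominated_convergence (fun _ => B * C)
        (fun k => (h k Ω P f C hf hC).1.aestronglyMeasurable) (integrable_const _)
        (fun k => Eventually.of_forall fun ω => ?_) (Eventually.of_forall fun ω => hpt _)
      refine (abs_map_seqOf_le (L k) fun n => hC n ω).trans ?_
      exact mul_le_mul_of_nonneg_right (hB k) hC0
    have h2 : Tendsto (fun k => ∫ ω, L k (seqOf fun n => f n ω) ∂P) atTop
        (𝓝 (L0 (seqOf fun n => ∫ ω, f n ω ∂P))) := by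
      refine (hpt (seqOf fun n => ∫ ω, f n ω ∂P)).congr fun k => ?_
      exact (h k Ω P f C hf hC).2.symm
    exact tendsto_nhds_unique h1 h2
  · exfalso
    rw [not_nonempty_iff] at hne
    have := measure_univ (μ := P)
    rw [Set.univ_eq_empty_iff.2 hne] at this
    simp at this

/-- Multiplication with a bounded sequence. -/
noncomputable def mulL (x : Linf) : Linf →L[ℝ] Linf := ContinuousLinearMap.mul ℝ Linf x

theorem mulL_apply (x y : Linf) (n : ℕ) : mulL x y n = x n * y n := by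
  show (x * y : Linf) n = _
  rw [lp.infty_coeFn_mul]
  rfl

theorem Medial.comp_mulL {φ : Linf →L[ℝ] ℝ} (h : Medial φ) (x : Linf) :
    Medial (φ.comp (mulL x)) := by
  intro Ω _ P _ f C hf hC
  have hx : ∀ n, |x n| ≤ ‖x‖ := fun n => lp.norm_apply_le_norm (by simp) x n
  have e1 : ∀ ω, mulL x (seqOf fun n => f n ω) = seqOf fun n => x n * f n ω := by
    intro ω
    ext n
    have hb : ∀ n, |x n * f n ω| ≤ ‖x‖ * C := fun n => by
      rw [abs_mul]; exact mul_le_mul (hx n) (hC n ω) (abs_nonneg _) (norm_nonneg _)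
    rw [mulL_apply, seqOf_apply (fun n => hC n ω), seqOf_apply hb]
  have hne : Nonempty Ω := by
    by_contra hcon
    rw [not_nonempty_iff] at hcon
    have := measure_univ (μ := P)
    rw [Set.univ_eq_empty_iff.2 hcon] at this
    simp at this
  obtain ⟨ω0⟩ := hne
  have hC0 : 0 ≤ C := (abs_nonneg _).trans (hC 0 ω0)
  have hI : ∀ n, |∫ ω, f n ω ∂P| ≤ C := fun n => by
    have := norm_integral_le_of_norm_le_const (μ := P) (f := f n) (C := C)
      (Eventually.of_forall (hC n))
    simpa using this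
  have e2 : mulL x (seqOf fun n => ∫ ω, f n ω ∂P) = seqOf fun n => ∫ ω, x n * f n ω ∂P := by
    ext n
    have hb : ∀ n, |∫ ω, x n * f n ω ∂P| ≤ ‖x‖ * C := fun n => by
      rw [integral_const_mul, abs_mul]
      exact mul_le_mul (hx n) (hI n) (abs_nonneg _) (norm_nonneg _)
    rw [mulL_apply, seqOf_apply hI, seqOf_apply hb, integral_const_mul]
  have h1 := h Ω P (fun n ω => x n * f n ω) (‖x‖ * C) (fun n => (hf n).const_mul _)
    (fun n ω => by
      rw [abs_mul]; exact mul_le_mul (hx n) (hC n ω) (abs_nonneg _) (norm_nonneg _))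
  simp only [ContinuousLinearMap.comp_apply, e1, e2]
  exact h1

/-! ### The averages -/

/-- The average of the first `n + 1` members. -/
noncomputable def avg (a : ℕ → ℝ) (n : ℕ) : ℝ := (n + 1 : ℝ)⁻¹ * ∑ i ∈ Finset.range (n + 1), a i

theorem abs_avg_le {a : ℕ → ℝ} {C : ℝ} (h : ∀ n, |a n| ≤ C) (n : ℕ) : |avg a n| ≤ C := by
  have hn : (0 : ℝ) < n + 1 := by positivity
  unfold avg
  rw [abs_mul, abs_of_pos (inv_pos.2 hn), inv_mul_le_iff₀ hn]
  calc |∑ i ∈ Finset.range (n + 1), a i| ≤ ∑ i ∈ Finset.range (n + 1), |a i| :=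
        Finset.abs_sum_le_sum_abs _ _
    _ ≤ ∑ i ∈ Finset.range (n + 1), C := Finset.sum_le_sum fun i _ => h i
    _ = (n + 1) * C := by simp

/-- The averages as an operator on `ℓ^∞`. -/
noncomputable def avgL : Linf →L[ℝ] Linf :=
  LinearMap.mkContinuous
    { toFun := fun x => seqOf (avg fun n => x n)
      map_add' := fun x y => by
        have hx : ∀ n, |x n| ≤ ‖x‖ := fun n => lp.norm_apply_le_norm (by simp) x n
        have hy : ∀ n, |y n| ≤ ‖y‖ := fun n => lp.norm_apply_le_norm (by simp) y n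
        have hxy : ∀ n, |(x + y) n| ≤ ‖x + y‖ := fun n => lp.norm_apply_le_norm (by simp) (x + y) n
        ext n
        simp only [lp.coeFn_add, Pi.add_apply]
        rw [seqOf_apply (abs_avg_le hx), seqOf_apply (abs_avg_le hy)]
        have hxy' : ∀ n, |x n + y n| ≤ ‖x + y‖ := fun n => by simpa using hxy n
        rw [seqOf_apply (abs_avg_le hxy')]
        unfold avg
        rw [Finset.sum_add_distrib, mul_add]
      map_smul' := fun c x => by
        have hx : ∀ n, |x n| ≤ ‖x‖ := fun n => lp.norm_apply_le_norm (by simp) x n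
        have hcx : ∀ n, |c * x n| ≤ |c| * ‖x‖ := fun n => by
          rw [abs_mul]; exact mul_le_mul_of_nonneg_left (hx n) (abs_nonneg _)
        ext n
        simp only [lp.coeFn_smul, Pi.smul_apply, smul_eq_mul, RingHom.id_apply]
        rw [seqOf_apply (abs_avg_le hcx), seqOf_apply (abs_avg_le hx)]
        unfold avg
        rw [← Finset.mul_sum]
        ring }
    1 (fun x => by
      have hx : ∀ n, |x n| ≤ ‖x‖ := fun n => lp.norm_apply_le_norm (by simp) x n
      rw [one_mul]
      exact norm_seqOf_le (abs_avg_le hx))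

theorem avgL_apply (x : Linf) (n : ℕ) : avgL x n = avg (fun n => x n) n := by
  have hx : ∀ n, |x n| ≤ ‖x‖ := fun n => lp.norm_apply_le_norm (by simp) x n
  exact seqOf_apply (abs_avg_le hx) n

theorem avgL_seqOf {a : ℕ → ℝ} {C : ℝ} (h : ∀ n, |a n| ≤ C) : avgL (seqOf a) = seqOf (avg a) := by
  ext n
  rw [avgL_apply, seqOf_apply (abs_avg_le h)]
  congr 1
  ext n
  exact seqOf_apply h n

theorem norm_avgL_le (x : Linf) : ‖avgL x‖ ≤ ‖x‖ := by
  have hx : ∀ n, |x n| ≤ ‖x‖ := fun n => lp.norm_apply_le_norm (by simp) x n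
  exact norm_seqOf_le (abs_avg_le hx)

theorem Medial.comp_avgL {φ : Linf →L[ℝ] ℝ} (h : Medial φ) : Medial (φ.comp avgL) := by
  intro Ω _ P _ f C hf hC
  have hne : Nonempty Ω := by
    by_contra hcon
    rw [not_nonempty_iff] at hcon
    have := measure_univ (μ := P)
    rw [Set.univ_eq_empty_iff.2 hcon] at this
    simp at this
  obtain ⟨ω0⟩ := hne
  have hI : ∀ n, |∫ ω, f n ω ∂P| ≤ C := fun n => by
    have := norm_integral_le_of_norm_le_const (μ := P) (f := f n) (C := C)
      (Eventually.of_forall (hC n))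
    simpa using this
  have hint : ∀ n, Integrable (f n) P := fun n =>
    Integrable.of_bound (hf n).aestronglyMeasurable C (Eventually.of_forall (hC n))
  have hav : ∀ n ω, |avg (fun i => f i ω) n| ≤ C := fun n ω => abs_avg_le (fun i => hC i ω) n
  have hm : ∀ n, Measurable fun ω => avg (fun i => f i ω) n := fun n => by
    unfold avg
    exact (Finset.measurable_fun_sum _ fun i _ => hf i).const_mul _
  have h1 := h Ω P (fun n ω => avg (fun i => f i ω) n) C hm hav
  have e2 : ∀ n, ∫ ω, avg (fun i => f i ω) n ∂P = avg (fun i => ∫ ω, f i ω ∂P) n := fun n => by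
    unfold avg
    rw [integral_const_mul, integral_finsetSum _ fun i _ => hint i]
  simp only [e2] at h1
  simp only [ContinuousLinearMap.comp_apply]
  have e3 : ∀ ω, avgL (seqOf fun n => f n ω) = seqOf fun n => avg (fun i => f i ω) n := fun ω =>
    avgL_seqOf fun n => hC n ω
  have e4 : avgL (seqOf fun n => ∫ ω, f n ω ∂P) = seqOf fun n => avg (fun i => ∫ ω, f i ω ∂P) n :=
    avgL_seqOf hI
  simp only [e3, e4]
  exact h1

end Pool.Agent.MP_87323d_lc
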