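import Pool.Agent.Lib.MP_87323d_lc.Ping

/-!
Spectral gap of two shears on the torus `𝕋²`.
-/

set_option autoImplicit false

namespace Pool.Agent.MP_87323d_lc

open MeasureTheory UnitAddTorus

/-- The torus. -/
abbrev T2 : Type := UnitAddTorus (Fin 2)

/-- The Haar probability measure on the torus. -/
noncomputable def muT : Measure T2 :=
  Measure.pi fun _ : Fin 2 => (AddCircle.haarAddCircle : Measure UnitAddCircle)

attribute [local instance] instMeasureSpaceUnitAddCircle

local instance : Measure.IsAddHaarMeasure (volume : Measure UnitAddCircle) :=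
  inferInstanceAs (Measure.IsAddHaarMeasure AddCircle.haarAddCircle)

local instance : IsProbabilityMeasure (volume : Measure UnitAddCircle) :=
  inferInstanceAs (IsProbabilityMeasure AddCircle.haarAddCircle)

/-- The shear `(x, y) ↦ (x + y, y)` of the torus. -/
def tU : T2 ≃ᵐ T2 where
  toFun x := ![x 0 + x 1, x 1]
  invFun x := ![x 0 - x 1, x 1]
  left_inv x := by ext i; fin_cases i <;> simp
  right_inv x := by ext i; fin_cases i <;> simp
  measurable_toFun := by
    refine measurable_pi_iff.2 fun i => ?_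
    fin_cases i
    · exact (measurable_pi_apply 0).add (measurable_pi_apply 1)
    · exact measurable_pi_apply 1
  measurable_invFun := by
    refine measurable_pi_iff.2 fun i => ?_
    fin_cases i
    · exact (measurable_pi_apply 0).sub (measurable_pi_apply 1)
    · exact measurable_pi_apply 1

/-- The shear `(x, y) ↦ (x, x + y)` of the torus. -/
def tV : T2 ≃ᵐ T2 where
  toFun x := ![x 0, x 0 + x 1]
  invFun x := ![x 0, x 1 - x 0]
  left_inv x := by ext i; fin_cases i <;> simp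
  right_inv x := by ext i; fin_cases i <;> simp
  measurable_toFun := by
    refine measurable_pi_iff.2 fun i => ?_
    fin_cases i
    · exact measurable_pi_apply 0
    · exact (measurable_pi_apply 0).add (measurable_pi_apply 1)
  measurable_invFun := by
    refine measurable_pi_iff.2 fun i => ?_
    fin_cases i
    · exact measurable_pi_apply 0
    · exact (measurable_pi_apply 1).sub (measurable_pi_apply 0)

@[simp] theorem tU_zero (x : T2) : tU x 0 = x 0 + x 1 := rfl
@[simp] theorem tU_one (x : T2) : tU x 1 = x 1 := rfl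
@[simp] theorem tV_zero (x : T2) : tV x 0 = x 0 := rfl
@[simp] theorem tV_one (x : T2) : tV x 1 = x 0 + x 1 := rfl

local instance : IsProbabilityMeasure (volume : Measure T2) := by
  infer_instance

instance : IsProbabilityMeasure muT :=
  inferInstanceAs (IsProbabilityMeasure (volume : Measure T2))

theorem tU_mp : MeasurePreserving tU (volume : Measure T2) volume := by
  let f : T2 →+ T2 :=
    { toFun := tU
      map_zero' := by ext i; fin_cases i <;> simp
      map_add' := fun x y => by ext i; fin_cases i <;> simp <;> abel }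
  have hc : Continuous f := by
    refine continuous_pi fun i => ?_
    fin_cases i
    · exact (continuous_apply 0).add (continuous_apply 1)
    · exact continuous_apply 1
  exact f.measurePreserving hc tU.surjective rfl

theorem tV_mp : MeasurePreserving tV (volume : Measure T2) volume := by
  let f : T2 →+ T2 :=
    { toFun := tV
      map_zero' := by ext i; fin_cases i <;> simp
      map_add' := fun x y => by ext i; fin_cases i <;> simp <;> abel }
  have hc : Continuous f := by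
    refine continuous_pi fun i => ?_
    fin_cases i
    · exact continuous_apply 0
    · exact (continuous_apply 0).add (continuous_apply 1)
  exact f.measurePreserving hc tV.surjective rfl

theorem mFourier_tU (n : Fin 2 → ℤ) (x : T2) : mFourier n (tU x) = mFourier (shU n) x := by
  simp only [mFourier, ContinuousMap.coe_mk, Fin.prod_univ_two, tU_zero, tU_one, shU_zero, shU_one]
  rw [fourier_add, fourier_apply (n := n 0) (x := x 0 + x 1), fourier_apply, fourier_apply,
    fourier_apply, smul_add, AddCircle.toCircle_add]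
  push_cast
  ring

theorem mFourier_tV (n : Fin 2 → ℤ) (x : T2) : mFourier n (tV x) = mFourier (shV n) x := by
  simp only [mFourier, ContinuousMap.coe_mk, Fin.prod_univ_two, tV_zero, tV_one, shV_zero, shV_one]
  rw [fourier_add, fourier_apply (n := n 1) (x := x 0 + x 1), fourier_apply, fourier_apply,
    fourier_apply, smul_add, AddCircle.toCircle_add]
  push_cast
  ring

theorem coeff_tU (f : T2 → ℂ) (n : Fin 2 → ℤ) :
    mFourierCoeff (fun x => f (tU x)) (shU n) = mFourierCoeff f n := by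
  unfold mFourierCoeff
  rw [← tU_mp.integral_comp' (g := fun t => mFourier (-n) t • f t)]
  congr 1
  ext x
  rw [mFourier_tU]
  have : shU (-n) = -shU n := by ext i; fin_cases i <;> simp <;> ring
  rw [this]

theorem coeff_tV (f : T2 → ℂ) (n : Fin 2 → ℤ) :
    mFourierCoeff (fun x => f (tV x)) (shV n) = mFourierCoeff f n := by
  unfold mFourierCoeff
  rw [← tV_mp.integral_comp' (g := fun t => mFourier (-n) t • f t)]
  congr 1
  ext x
  rw [mFourier_tV]
  have : shV (-n) = -shV n := by ext i; fin_cases i <;> simp <;> ring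
  rw [this]

theorem parseval {f : T2 → ℂ} (hf : MemLp f 2 volume) :
    HasSum (fun n => ‖mFourierCoeff f n‖ ^ 2) (∫ t, ‖f t‖ ^ 2) := by
  have h := hasSum_sq_mFourierCoeff (hf.toLp f)
  have h1 : ∀ n, mFourierCoeff (hf.toLp f) n = mFourierCoeff f n := fun n =>
    integral_congr_ae (by filter_upwards [hf.coeFn_toLp] with x hx; rw [hx])
  have h2 : ∫ t, ‖(hf.toLp f) t‖ ^ 2 = ∫ t, ‖f t‖ ^ 2 :=
    integral_congr_ae (by filter_upwards [hf.coeFn_toLp] with x hx; rw [hx])
  simp only [h1, h2] at h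
  exact h

theorem coeff_sub {f g : T2 → ℂ} (hf : MemLp f 2 volume) (hg : MemLp g 2 volume)
    (n : Fin 2 → ℤ) :
    mFourierCoeff (fun x => f x - g x) n = mFourierCoeff f n - mFourierCoeff g n := by
  unfold mFourierCoeff
  rw [← integral_sub]
  · congr 1
    ext x
    rw [smul_sub]
  · exact (hf.integrable (by norm_num)).bdd_smul (C := 1)
      (mFourier (-n)).continuous.aestronglyMeasurable
      (Filter.Eventually.of_forall fun x =>
        ((mFourier (-n)).norm_coe_le_norm x).trans mFourier_norm.le)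
  · exact (hg.integrable (by norm_num)).bdd_smul (C := 1)
      (mFourier (-n)).continuous.aestronglyMeasurable
      (Filter.Eventually.of_forall fun x =>
        ((mFourier (-n)).norm_coe_le_norm x).trans mFourier_norm.le)

theorem sq_sub_sq_le (p q : ℂ) :
    |‖p‖ ^ 2 - ‖q‖ ^ 2| ≤ 36 * ‖p - q‖ ^ 2 + 1 / 72 * (‖p‖ ^ 2 + ‖q‖ ^ 2) := by
  have h1 : |‖p‖ - ‖q‖| ≤ ‖p - q‖ := abs_norm_sub_norm_le p q
  have h2 : ‖p‖ ^ 2 - ‖q‖ ^ 2 = (‖p‖ - ‖q‖) * (‖p‖ + ‖q‖) := by ring
  rw [h2, abs_mul, abs_of_nonneg (by positivity : 0 ≤ ‖p‖ + ‖q‖)]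
  nlinarith [norm_nonneg p, norm_nonneg q, abs_nonneg (‖p‖ - ‖q‖),
    sq_nonneg (12 * ‖p - q‖ - (‖p‖ + ‖q‖) / 12 * 6 / 6 ), sq_nonneg (‖p‖ - ‖q‖),
    mul_le_mul_of_nonneg_right h1 (by positivity : 0 ≤ ‖p‖ + ‖q‖),
    sq_nonneg (6 * ‖p - q‖ - (‖p‖ + ‖q‖) / 12)]

/-- The spectral gap. -/
theorem gap {ξ : T2 → ℝ} (hξ : MemLp ξ 2 volume) (h0 : ∫ x, ξ x = 0) :
    ∫ x, ξ x ^ 2 ≤
      648 * ((∫ x, (ξ x - ξ (tU x)) ^ 2) + ∫ x, (ξ x - ξ (tV x)) ^ 2) := by
  have hξc : MemLp (fun x => (ξ x : ℂ)) 2 volume := hξ.ofReal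
  have hUc : MemLp (fun x => (ξ (tU x) : ℂ)) 2 volume := hξc.comp_measurePreserving tU_mp
  have hVc : MemLp (fun x => (ξ (tV x) : ℂ)) 2 volume := hξc.comp_measurePreserving tV_mp
  set c := mFourierCoeff (fun x => (ξ x : ℂ)) with hc
  have hc0 : c 0 = 0 := by
    rw [hc]
    unfold mFourierCoeff
    simp only [neg_zero, mFourier_zero, ContinuousMap.one_apply, one_smul]
    rw [integral_complex_ofReal, h0]
    rfl
  have hA := parseval hξc
  have hB := parseval (hξc.sub hUc)
  have hC := parseval (hξc.sub hVc)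
  have eA : ∫ t, ‖((ξ t : ℝ) : ℂ)‖ ^ 2 = ∫ x, ξ x ^ 2 := by
    congr 1; ext x; rw [Complex.norm_real, Real.norm_eq_abs, sq_abs]
  have eB : ∫ t, ‖((fun x => (ξ x : ℂ)) - fun x => (ξ (tU x) : ℂ)) t‖ ^ 2
      = ∫ x, (ξ x - ξ (tU x)) ^ 2 := by
    congr 1; ext x
    rw [Pi.sub_apply, ← Complex.ofReal_sub, Complex.norm_real, Real.norm_eq_abs, sq_abs]
  have eC : ∫ t, ‖((fun x => (ξ x : ℂ)) - fun x => (ξ (tV x) : ℂ)) t‖ ^ 2
      = ∫ x, (ξ x - ξ (tV x)) ^ 2 := by
    congr 1; ext x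
    rw [Pi.sub_apply, ← Complex.ofReal_sub, Complex.norm_real, Real.norm_eq_abs, sq_abs]
  rw [eA] at hA
  rw [eB, ← shU.hasSum_iff] at hB
  rw [eC, ← shV.hasSum_iff] at hC
  have kB : ∀ n, ((fun n => ‖mFourierCoeff ((fun x => (ξ x : ℂ)) - fun x => (ξ (tU x) : ℂ)) n‖ ^ 2)
      ∘ shU) n = ‖c (shU n) - c n‖ ^ 2 := by
    intro n
    have h1 := coeff_sub hξc hUc (shU n)
    have h2 := coeff_tU (fun x => (ξ x : ℂ)) n
    rw [h2] at h1
    simp only [Function.comp]
    rw [← h1]
    rfl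
  have kC : ∀ n, ((fun n => ‖mFourierCoeff ((fun x => (ξ x : ℂ)) - fun x => (ξ (tV x) : ℂ)) n‖ ^ 2)
      ∘ shV) n = ‖c (shV n) - c n‖ ^ 2 := by
    intro n
    have h1 := coeff_sub hξc hVc (shV n)
    have h2 := coeff_tV (fun x => (ξ x : ℂ)) n
    rw [h2] at h1
    simp only [Function.comp]
    rw [← h1]
    rfl
  have hB' : HasSum (fun n => ‖c (shU n) - c n‖ ^ 2) (∫ x, (ξ x - ξ (tU x)) ^ 2) := by
    have : (fun n => ‖c (shU n) - c n‖ ^ 2) = ((fun n => ‖mFourierCoeff ((fun x => (ξ x : ℂ))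
        - fun x => (ξ (tU x) : ℂ)) n‖ ^ 2) ∘ shU) := by
      ext n; exact (kB n).symm
    rw [this]; exact hB
  have hC' : HasSum (fun n => ‖c (shV n) - c n‖ ^ 2) (∫ x, (ξ x - ξ (tV x)) ^ 2) := by
    have : (fun n => ‖c (shV n) - c n‖ ^ 2) = ((fun n => ‖mFourierCoeff ((fun x => (ξ x : ℂ))
        - fun x => (ξ (tV x) : ℂ)) n‖ ^ 2) ∘ shV) := by
      ext n; exact (kC n).symm
    rw [this]; exact hC
  have hAU : HasSum (fun n => ‖c (shU n)‖ ^ 2) (∫ x, ξ x ^ 2) := (shU.hasSum_iff).2 hA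
  have hAV : HasSum (fun n => ‖c (shV n)‖ ^ 2) (∫ x, ξ x ^ 2) := (shV.hasSum_iff).2 hA
  have hU : ∑' n, |‖c (shU n)‖ ^ 2 - ‖c n‖ ^ 2|
      ≤ 36 * (∫ x, (ξ x - ξ (tU x)) ^ 2) + 1 / 72 * ((∫ x, ξ x ^ 2) + ∫ x, ξ x ^ 2) := by
    have hr := (hB'.mul_left 36).add ((hAU.add hA).mul_left (1 / 72))
    rw [← hr.tsum_eq]
    exact (hAU.summable.sub hA.summable).abs.tsum_le_tsum (fun n => sq_sub_sq_le _ _) hr.summable
  have hV : ∑' n, |‖c (shV n)‖ ^ 2 - ‖c n‖ ^ 2|
      ≤ 36 * (∫ x, (ξ x - ξ (tV x)) ^ 2) + 1 / 72 * ((∫ x, ξ x ^ 2) + ∫ x, ξ x ^ 2) := by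
    have hr := (hC'.mul_left 36).add ((hAV.add hA).mul_left (1 / 72))
    rw [← hr.tsum_eq]
    exact (hAV.summable.sub hA.summable).abs.tsum_le_tsum (fun n => sq_sub_sq_le _ _) hr.summable
  have hpp := ping_pong (m := fun n => ‖c n‖ ^ 2) (fun n => by positivity) hA.summable
    (by simp [hc0]) hU hV
  rw [hA.tsum_eq] at hpp
  linarith

theorem tU_muT : MeasurePreserving tU muT muT := tU_mp

theorem tV_muT : MeasurePreserving tV muT muT := tV_mp

/-- The spectral gap. -/
theorem gap_muT {ξ : T2 → ℝ} (hξ : MemLp ξ 2 muT) (h0 : ∫ x, ξ x ∂muT = 0) :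
    ∫ x, ξ x ^ 2 ∂muT ≤
      648 * ((∫ x, (ξ x - ξ (tU x)) ^ 2 ∂muT) + ∫ x, (ξ x - ξ (tV x)) ^ 2 ∂muT) :=
  gap hξ h0

end Pool.Agent.MP_87323d_lc
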