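import Pool.Agent.Lib.MP_87323d_lc.Transfer
import Pool.Agent.Lib.MP_87323d_lc.Torus
import Pool.Agent.Lib.MP_87323d_lc.Gap
import Pool.Agent.Lib.MP_87323d_lc.Dual

/-!
Measurable functionals are medial.
-/

set_option autoImplicit false

namespace Pool.Agent.MP_87323d_lc

open MeasureTheory

/-- The coboundary property of the torus. -/
theorem torus_cob (ε : ℝ) (hε : 0 < ε) (hε1 : ε ≤ 1) : ∃ C : ℝ, 0 ≤ C ∧ ∀ f : T2 → ℝ,
    Measurable f → (∀ x, |f x| ≤ 1) → ∫ x, f x ∂muT = 0 → ∀ η : ℝ, 0 < η →
      ∃ g k e : T2 → ℝ, Measurable g ∧ Measurable k ∧ Measurable e ∧ (∀ x, |g x| ≤ C) ∧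
      (∀ x, |k x| ≤ C) ∧ (∀ x, |e x| ≤ ε) ∧
      ∫ x, |f x - ((g x - g (tU x)) + (k x - k (tV x)) + e x)| ∂muT ≤ η := by
  refine ⟨1296 / ε, by positivity, fun f hf hf1 hf0 η hη => ?_⟩
  exact coboundary tU_muT tV_muT (by positivity) hε.le
    (fun h hh => l1_gap tU_muT tV_muT (fun ξ h1 h2 => gap_muT h1 h2) hh hε hε1) hf hf1 hf0 hη

/-- A measurable map from the torus onto the unit interval which preserves the measures. -/
theorem exists_torus_interval : ∃ τ : T2 → unitInterval, Measurable τ ∧
    Measure.map τ muT = volume := by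
  -- the first coordinate
  have h1 : MeasurePreserving (fun z : T2 => z 0) muT
      (AddCircle.haarAddCircle : Measure UnitAddCircle) :=
    measurePreserving_eval (fun _ : Fin 2 => (AddCircle.haarAddCircle : Measure UnitAddCircle)) 0
  have h2 : MeasurePreserving (AddCircle.equivIoc (1 : ℝ) 0) (volume : Measure UnitAddCircle)
      (Measure.comap Subtype.val volume) := AddCircle.measurePreserving_equivIoc 1
  have hv : (volume : Measure UnitAddCircle) = AddCircle.haarAddCircle := by
    rw [AddCircle.volume_eq_smul_haarAddCircle]; simp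
  rw [hv] at h2
  have h3 : MeasurePreserving (Subtype.val : Set.Ioc (0 : ℝ) (0 + 1) → ℝ)
      (Measure.comap Subtype.val volume) (volume.restrict (Set.Ioc (0 : ℝ) (0 + 1))) :=
    measurePreserving_subtype_coe measurableSet_Ioc
  have h4 := h3.comp (h2.comp h1)
  set τ1 : T2 → ℝ := Subtype.val ∘ (AddCircle.equivIoc (1 : ℝ) 0) ∘ fun z : T2 => z 0 with hτ1
  have hproj : Measurable (Set.projIcc (0 : ℝ) 1 zero_le_one) := continuous_projIcc.measurable
  refine ⟨fun z => Set.projIcc (0 : ℝ) 1 zero_le_one (τ1 z), hproj.comp h4.measurable, ?_⟩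
  have e1 : Measure.map (fun z => Set.projIcc (0 : ℝ) 1 zero_le_one (τ1 z)) muT
      = Measure.map (Set.projIcc (0 : ℝ) 1 zero_le_one) (Measure.map τ1 muT) :=
    (Measure.map_map hproj h4.measurable).symm
  rw [e1, h4.map_eq, zero_add, Measure.restrict_congr_set Ioc_ae_eq_Icc]
  have e2 : (volume.restrict (Set.Icc (0 : ℝ) 1))
      = Measure.map ((↑) : unitInterval → ℝ) volume := unitInterval.measurePreserving_coe.map_eq.symm
  rw [e2, Measure.map_map hproj measurable_subtype_coe]
  have e3 : (Set.projIcc (0 : ℝ) 1 zero_le_one) ∘ ((↑) : unitInterval → ℝ) = id := by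
    ext t
    simp [Set.projIcc_val]
  rw [e3, Measure.map_id]

/-- Commutation on standard Borel spaces. -/
theorem comm_standard {φ : Linf →L[ℝ] ℝ} (h : SetsMeasurable φ) {S : Type} [MeasurableSpace S]
    [StandardBorelSpace S] [Nonempty S] (ν : Measure S) [IsProbabilityMeasure ν]
    {g : ℕ → S → ℝ} {C : ℝ} (hg : ∀ n, Measurable (g n)) (hC : ∀ n s, |g n s| ≤ C) :
    ∫ s, φ (seqOf fun n => g n s) ∂ν = φ (seqOf fun n => ∫ s, g n s ∂ν) := by
  obtain ⟨q, hq, hqν⟩ := Measure.exists_measurable_map_eq ν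
  obtain ⟨τ, hτ, hτv⟩ := exists_torus_interval
  have hp : Measurable (q ∘ τ) := hq.comp hτ
  have hpν : Measure.map (q ∘ τ) muT = ν := by
    rw [← Measure.map_map hq hτ, hτv, hqν]
  have hmeas := measOn_standard h ν g C hg hC
  have e1 : ∫ s, φ (seqOf fun n => g n s) ∂ν
      = ∫ z, φ (seqOf fun n => g n ((q ∘ τ) z)) ∂muT := by
    rw [← hpν] at hmeas ⊢
    exact integral_map hp.aemeasurable hmeas.aestronglyMeasurable
  have e2 : ∀ n, ∫ s, g n s ∂ν = ∫ z, g n ((q ∘ τ) z) ∂muT := by
    intro n
    rw [← hpν]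
    exact integral_map hp.aemeasurable (hg n).aestronglyMeasurable
  simp only [e2]
  rw [e1]
  exact commutes tU_muT tV_muT torus_cob (measOn_standard h muT)
    (f := fun n z => g n ((q ∘ τ) z)) (fun n => (hg n).comp hp) (B := C) (fun n z => hC n _)

/-- Measurable functionals are medial. -/
theorem medial_of_setsMeasurable {φ : Linf →L[ℝ] ℝ} (h : SetsMeasurable φ) : Medial φ := by
  intro Ω _ P _ f C hf hC
  set F : Ω → ℕ → ℝ := fun ω n => f n ω with hF
  have hFm : Measurable F := measurable_pi_iff.2 hf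
  set ν : Measure (ℕ → ℝ) := Measure.map F P with hν
  have : IsProbabilityMeasure ν := Measure.isProbabilityMeasure_map hFm.aemeasurable
  set g : ℕ → (ℕ → ℝ) → ℝ := fun n s => max (-|C|) (min |C| (s n)) with hg
  have hgm : ∀ n, Measurable (g n) := fun n =>
    measurable_const.max (measurable_const.min (measurable_pi_apply n))
  have hgb : ∀ n s, |g n s| ≤ |C| := fun n s => by
    rw [abs_le]
    exact ⟨le_max_left _ _, max_le (by linarith [abs_nonneg C]) (min_le_left _ _)⟩
  have hgF : ∀ n ω, g n (F ω) = f n ω := fun n ω => by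
    have h1 := abs_le.1 ((hC n ω).trans (le_abs_self C))
    simp only [hg, hF]
    rw [min_eq_right h1.2, max_eq_right h1.1]
  have hm := measOn_standard h ν g |C| hgm hgb
  constructor
  · have h1 : AEMeasurable ((fun s => φ (seqOf fun n => g n s)) ∘ F) P :=
      AEMeasurable.comp_measurable hm hFm
    have h2 : ((fun s => φ (seqOf fun n => g n s)) ∘ F) = fun ω => φ (seqOf fun n => f n ω) := by
      ext ω
      simp only [Function.comp, hgF]
    rw [h2] at h1
    exact h1
  · have h1 := comm_standard h ν hgm hgb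
    have h2 : ∫ s, φ (seqOf fun n => g n s) ∂ν = ∫ ω, φ (seqOf fun n => f n ω) ∂P := by
      rw [hν, integral_map hFm.aemeasurable hm.aestronglyMeasurable]
      simp only [hgF]
    have h3 : ∀ n, ∫ s, g n s ∂ν = ∫ ω, f n ω ∂P := fun n => by
      rw [hν, integral_map hFm.aemeasurable (hgm n).aestronglyMeasurable]
      simp only [hgF]
    rw [h2] at h1
    simp only [h3] at h1
    exact h1

/-- Medial functionals are measurable. -/
theorem setsMeasurable_of_medial {φ : Linf →L[ℝ] ℝ} (h : Medial φ) : SetsMeasurable φ := by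
  intro E hE a
  have hE1 : ∀ n x, |(E n).indicator (fun _ : ℝ => (1 : ℝ)) x| ≤ 1 := fun n x => by
    by_cases hx : x ∈ E n
    · rw [Set.indicator_of_mem hx]; simp
    · rw [Set.indicator_of_notMem hx]; simp
  have hEm : ∀ n, Measurable ((E n).indicator (fun _ : ℝ => (1 : ℝ))) := fun n =>
    measurable_const.indicator (hE n)
  -- a probability measure equivalent to Lebesgue measure
  set P : Measure ℝ := (volume : Measure ℝ).toFinite with hP
  have hP0 : IsProbabilityMeasure P := by rw [hP]; infer_instance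
  have hP1 : (volume : Measure ℝ) ≪ P := absolutelyContinuous_toFinite _
  have h1 := (h ℝ P (fun n => (E n).indicator (fun _ => 1)) 1 hEm hE1).1
  have h2 : AEMeasurable (fun x => φ (seqOf fun n => (E n).indicator (fun _ => 1) x))
      (volume : Measure ℝ) := h1.mono_ac hP1
  exact nullMeasurableSet_lt aemeasurable_const h2

end Pool.Agent.MP_87323d_lc
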