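import Mathlib

/-!
A summable weight on `ℤ²` without the origin which is almost invariant under the shears has small
mass.
-/

set_option autoImplicit false

namespace Pool.Agent.MP_87323d_lc

/-- The mass of a set. -/
noncomputable def mass {ι : Type} (m : ι → ℝ) (S : Set ι) : ℝ := ∑' n, S.indicator m n

section Mass

variable {ι : Type} {m : ι → ℝ}

theorem mass_nonneg (hm : ∀ n, 0 ≤ m n) (S : Set ι) : 0 ≤ mass m S :=
  tsum_nonneg fun n => Set.indicator_nonneg (fun i _ => hm i) n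

theorem mass_mono (hm : ∀ n, 0 ≤ m n) (hs : Summable m) {S T : Set ι} (h : S ⊆ T) :
    mass m S ≤ mass m T :=
  (hs.indicator S).tsum_le_tsum (fun n => Set.indicator_le_indicator_of_subset h hm n)
    (hs.indicator T)

theorem mass_union (hs : Summable m) {S T : Set ι} (h : Disjoint S T) :
    mass m (S ∪ T) = mass m S + mass m T := by
  unfold mass
  rw [← (hs.indicator S).tsum_add (hs.indicator T)]
  congr 1
  ext n
  rw [Set.indicator_union_of_disjoint h]

theorem mass_union_le (hm : ∀ n, 0 ≤ m n) (hs : Summable m) (S T : Set ι) :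
    mass m (S ∪ T) ≤ mass m S + mass m T := by
  unfold mass
  rw [← (hs.indicator S).tsum_add (hs.indicator T)]
  refine (hs.indicator _).tsum_le_tsum (fun n => ?_) ((hs.indicator S).add (hs.indicator T))
  by_cases h1 : n ∈ S <;> by_cases h2 : n ∈ T <;> simp [Set.indicator, h1, h2, hm n]

/-- The mass changes little under an almost invariant bijection. -/
theorem mass_le_image (hs : Summable m) (e : ι ≃ ι) (S : Set ι)
    {δ : ℝ} (hd : Summable fun n => |m (e n) - m n|) (hδ : ∑' n, |m (e n) - m n| ≤ δ) :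
    mass m S ≤ mass m (e '' S) + δ := by
  have h1 : mass m (e '' S) = ∑' n, S.indicator (m ∘ e) n := by
    unfold mass
    rw [← e.tsum_eq]
    congr 1
    ext n
    by_cases h : n ∈ S
    · simp [Set.indicator, h]
    · simp [Set.indicator, h]
  have hs' : Summable (m ∘ e) := e.summable_iff.2 hs
  have h2 : mass m S ≤ (∑' n, S.indicator (m ∘ e) n) + ∑' n, |m (e n) - m n| := by
    unfold mass
    rw [← (hs'.indicator S).tsum_add hd]
    refine (hs.indicator S).tsum_le_tsum (fun n => ?_) ((hs'.indicator S).add hd)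
    by_cases h : n ∈ S
    · have := neg_abs_le (m (e n) - m n)
      simp only [Set.indicator, h, if_true, Function.comp]
      linarith
    · simp only [Set.indicator, h, if_false, zero_add]
      positivity
  linarith

end Mass

/-- The shear `(x, y) ↦ (x, x + y)`. -/
def shU : (Fin 2 → ℤ) ≃ (Fin 2 → ℤ) where
  toFun n := ![n 0, n 0 + n 1]
  invFun n := ![n 0, n 1 - n 0]
  left_inv n := by ext i; fin_cases i <;> simp
  right_inv n := by ext i; fin_cases i <;> simp

/-- The shear `(x, y) ↦ (x + y, y)`. -/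
def shV : (Fin 2 → ℤ) ≃ (Fin 2 → ℤ) where
  toFun n := ![n 0 + n 1, n 1]
  invFun n := ![n 0 - n 1, n 1]
  left_inv n := by ext i; fin_cases i <;> simp
  right_inv n := by ext i; fin_cases i <;> simp

@[simp] theorem shU_zero (n : Fin 2 → ℤ) : shU n 0 = n 0 := rfl
@[simp] theorem shU_one (n : Fin 2 → ℤ) : shU n 1 = n 0 + n 1 := rfl
@[simp] theorem shV_zero (n : Fin 2 → ℤ) : shV n 0 = n 0 + n 1 := rfl
@[simp] theorem shV_one (n : Fin 2 → ℤ) : shV n 1 = n 1 := rfl
@[simp] theorem shU_symm_zero (n : Fin 2 → ℤ) : shU.symm n 0 = n 0 := rfl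
@[simp] theorem shU_symm_one (n : Fin 2 → ℤ) : shU.symm n 1 = n 1 - n 0 := rfl
@[simp] theorem shV_symm_zero (n : Fin 2 → ℤ) : shV.symm n 0 = n 0 - n 1 := rfl
@[simp] theorem shV_symm_one (n : Fin 2 → ℤ) : shV.symm n 1 = n 1 := rfl

/-- Ping-pong: the mass of `ℤ² ∖ 0` is at most nine times the change of the mass under the two
shears. -/
theorem ping_pong {m : (Fin 2 → ℤ) → ℝ} (hm : ∀ n, 0 ≤ m n) (hs : Summable m) (h0 : m 0 = 0)
    {δU δV : ℝ} (hU : ∑' n, |m (shU n) - m n| ≤ δU) (hV : ∑' n, |m (shV n) - m n| ≤ δV) :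
    ∑' n, m n ≤ 9 * (δU + δV) := by
  have hdU : Summable fun n => |m (shU n) - m n| := by
    have h1 : Summable (m ∘ shU) := shU.summable_iff.2 hs
    exact (h1.sub hs).abs
  have hdV : Summable fun n => |m (shV n) - m n| := by
    have h1 : Summable (m ∘ shV) := shV.summable_iff.2 hs
    exact (h1.sub hs).abs
  have hdU' : Summable fun n => |m (shU.symm n) - m n| := by
    have h1 : Summable (m ∘ shU.symm) := shU.symm.summable_iff.2 hs
    exact (h1.sub hs).abs
  have hdV' : Summable fun n => |m (shV.symm n) - m n| := by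
    have h1 : Summable (m ∘ shV.symm) := shV.symm.summable_iff.2 hs
    exact (h1.sub hs).abs
  have hU' : ∑' n, |m (shU.symm n) - m n| ≤ δU := by
    rw [← shU.tsum_eq]
    simpa [abs_sub_comm] using hU
  have hV' : ∑' n, |m (shV.symm n) - m n| ≤ δV := by
    rw [← shV.tsum_eq]
    simpa [abs_sub_comm] using hV
  -- the four open quadrants
  set Q1 : Set (Fin 2 → ℤ) := {n | 0 < n 0 ∧ 0 < n 1} with hQ1
  set Q3 : Set (Fin 2 → ℤ) := {n | n 0 < 0 ∧ n 1 < 0} with hQ3
  set Q4 : Set (Fin 2 → ℤ) := {n | 0 < n 0 ∧ n 1 < 0} with hQ4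
  set Q2 : Set (Fin 2 → ℤ) := {n | n 0 < 0 ∧ 0 < n 1} with hQ2
  set H : Set (Fin 2 → ℤ) := {n | n 0 ≠ 0 ∧ n 1 = 0} with hH
  set W : Set (Fin 2 → ℤ) := {n | n 0 = 0 ∧ n 1 ≠ 0} with hW
  have key : ∀ (Q : Set (Fin 2 → ℤ)) (e f : (Fin 2 → ℤ) ≃ (Fin 2 → ℤ)),
      (Summable fun n => |m (e n) - m n|) → (Summable fun n => |m (f n) - m n|) →
      (∑' n, |m (e n) - m n| ≤ δU) → (∑' n, |m (f n) - m n| ≤ δV) →
      (e '' Q ∪ f '' Q ⊆ Q) → Disjoint (e '' Q) (f '' Q) → mass m Q ≤ δU + δV := by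
    intro Q e f he hf he' hf' hsub hdis
    have h1 := mass_le_image hs e Q he he'
    have h2 := mass_le_image hs f Q hf hf'
    have h3 := mass_mono hm hs hsub
    rw [mass_union hs hdis] at h3
    linarith
  have k1 : mass m Q1 ≤ δU + δV := by
    refine key Q1 shU shV hdU hdV hU hV ?_ ?_
    · rintro n (⟨k, ⟨h1, h2⟩, rfl⟩ | ⟨k, ⟨h1, h2⟩, rfl⟩)
      · exact ⟨by simpa using h1, by simp; omega⟩
      · exact ⟨by simp; omega, by simpa using h2⟩
    · rw [Set.disjoint_left]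
      rintro n ⟨k, ⟨h1, h2⟩, rfl⟩ ⟨l, ⟨h3, h4⟩, h5⟩
      have e0 := congrFun h5 0
      have e1 := congrFun h5 1
      simp at e0 e1
      omega
  have k3 : mass m Q3 ≤ δU + δV := by
    refine key Q3 shU shV hdU hdV hU hV ?_ ?_
    · rintro n (⟨k, ⟨h1, h2⟩, rfl⟩ | ⟨k, ⟨h1, h2⟩, rfl⟩)
      · exact ⟨by simpa using h1, by simp; omega⟩
      · exact ⟨by simp; omega, by simpa using h2⟩
    · rw [Set.disjoint_left]
      rintro n ⟨k, ⟨h1, h2⟩, rfl⟩ ⟨l, ⟨h3, h4⟩, h5⟩
      have e0 := congrFun h5 0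
      have e1 := congrFun h5 1
      simp at e0 e1
      omega
  have k4 : mass m Q4 ≤ δU + δV := by
    refine key Q4 shU.symm shV.symm hdU' hdV' hU' hV' ?_ ?_
    · rintro n (⟨k, ⟨h1, h2⟩, rfl⟩ | ⟨k, ⟨h1, h2⟩, rfl⟩)
      · exact ⟨by simpa using h1, by simp; omega⟩
      · exact ⟨by simp; omega, by simpa using h2⟩
    · rw [Set.disjoint_left]
      rintro n ⟨k, ⟨h1, h2⟩, rfl⟩ ⟨l, ⟨h3, h4⟩, h5⟩
      have e0 := congrFun h5 0
      have e1 := congrFun h5 1
      simp at e0 e1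
      omega
  have k2 : mass m Q2 ≤ δU + δV := by
    refine key Q2 shU.symm shV.symm hdU' hdV' hU' hV' ?_ ?_
    · rintro n (⟨k, ⟨h1, h2⟩, rfl⟩ | ⟨k, ⟨h1, h2⟩, rfl⟩)
      · exact ⟨by simpa using h1, by simp; omega⟩
      · exact ⟨by simp; omega, by simpa using h2⟩
    · rw [Set.disjoint_left]
      rintro n ⟨k, ⟨h1, h2⟩, rfl⟩ ⟨l, ⟨h3, h4⟩, h5⟩
      have e0 := congrFun h5 0
      have e1 := congrFun h5 1
      simp at e0 e1
      omega
  have kH : mass m H ≤ mass m (Q1 ∪ Q3) + δU := by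
    refine (mass_le_image hs shU H hdU hU).trans ?_
    gcongr
    refine mass_mono hm hs ?_
    rintro n ⟨k, ⟨h1, h2⟩, rfl⟩
    rcases lt_or_gt_of_ne h1 with h | h
    · right; exact ⟨by simpa using h, by simp; omega⟩
    · left; exact ⟨by simpa using h, by simp; omega⟩
  have kW : mass m W ≤ mass m (Q1 ∪ Q3) + δV := by
    refine (mass_le_image hs shV W hdV hV).trans ?_
    gcongr
    refine mass_mono hm hs ?_
    rintro n ⟨k, ⟨h1, h2⟩, rfl⟩
    rcases lt_or_gt_of_ne h2 with h | h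
    · right; exact ⟨by simp; omega, by simpa using h⟩
    · left; exact ⟨by simp; omega, by simpa using h⟩
  have k13 := mass_union_le hm hs Q1 Q3
  have hall : ∑' n, m n ≤ mass m (Q1 ∪ Q3 ∪ (Q2 ∪ Q4) ∪ (H ∪ W)) := by
    refine hs.tsum_le_tsum (fun n => ?_) (hs.indicator _)
    by_cases hn : n = 0
    · rw [hn, h0]
      exact Set.indicator_nonneg (fun i _ => hm i) _
    · rw [Set.indicator_of_mem]
      have hne : n 0 ≠ 0 ∨ n 1 ≠ 0 := by
        by_contra hcon
        push Not at hcon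
        exact hn (by ext i; fin_cases i; exacts [hcon.1, hcon.2])
      simp only [Set.mem_union, hQ1, hQ2, hQ3, hQ4, hH, hW, Set.mem_setOf_eq]
      omega
  have u1 := mass_union_le hm hs (Q1 ∪ Q3 ∪ (Q2 ∪ Q4)) (H ∪ W)
  have u2 := mass_union_le hm hs (Q1 ∪ Q3) (Q2 ∪ Q4)
  have u3 := mass_union_le hm hs Q2 Q4
  have u4 := mass_union_le hm hs H W
  have d1 : 0 ≤ δU := (tsum_nonneg fun n => abs_nonneg _).trans hU
  have d2 : 0 ≤ δV := (tsum_nonneg fun n => abs_nonneg _).trans hV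
  linarith

end Pool.Agent.MP_87323d_lc
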