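import Pool.Agent.Lib.MP_87323d_lc.Comm

/-!
Measurability: from sets of reals to all probability spaces.
-/

set_option autoImplicit false

namespace Pool.Agent.MP_87323d_lc

open MeasureTheory ProbabilityTheory

/-- Measurability along sequences of sets. -/
def SetsOn {X : Type} [MeasurableSpace X] (μ : Measure X) (φ : Linf →L[ℝ] ℝ) : Prop :=
  ∀ E : ℕ → Set X, (∀ n, MeasurableSet (E n)) →
    AEMeasurable (fun x => φ (seqOf fun n => (E n).indicator (fun _ => 1) x)) μ

theorem setsOn_unitInterval {φ : Linf →L[ℝ] ℝ} (h : SetsMeasurable φ) :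
    SetsOn (volume : Measure unitInterval) φ := by
  intro E hE
  apply NullMeasurable.aemeasurable
  have key : ∀ a : ℝ, NullMeasurableSet {x : unitInterval |
      a < φ (seqOf fun n => (E n).indicator (fun _ => 1) x)} volume := by
    intro a
    have h1 := h (fun n => Subtype.val '' E n)
      (fun n => (MeasurableEmbedding.subtype_coe measurableSet_Icc).measurableSet_image.2 (hE n)) a
    have hq : Measure.QuasiMeasurePreserving ((↑) : unitInterval → ℝ) volume volume :=
      ⟨measurable_subtype_coe, by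
        rw [unitInterval.measurePreserving_coe.map_eq]
        exact Measure.absolutelyContinuous_of_le Measure.restrict_le_self⟩
    have h2 := h1.preimage hq
    convert h2 using 1
    ext x
    simp only [Set.mem_setOf_eq, Set.mem_preimage]
    have : (fun n => (E n).indicator (fun _ => (1 : ℝ)) x)
        = fun n => (Subtype.val '' E n).indicator (fun _ => (1 : ℝ)) (x : ℝ) := by
      ext n
      by_cases hx : x ∈ E n
      · rw [Set.indicator_of_mem hx,
          Set.indicator_of_mem (show (x : ℝ) ∈ Subtype.val '' E n from ⟨x, hx, rfl⟩)]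
      · rw [Set.indicator_of_notMem hx, Set.indicator_of_notMem]
        rintro ⟨y, hy, hxy⟩
        exact hx (Subtype.ext hxy ▸ hy)
    rw [this]
  exact measurable_of_Ioi (δ := NullMeasurableSpace unitInterval volume)
    (f := fun x : unitInterval => φ (seqOf fun n => (E n).indicator (fun _ => 1) x)) key

theorem abs_sub_floor_le {y : ℝ} (h0 : 0 ≤ y) (h1 : y ≤ 1) (k : ℕ) :
    |y - (k + 1 : ℝ)⁻¹ * ∑ j ∈ Finset.range (k + 1), (if ((j : ℝ) + 1) * (k + 1 : ℝ)⁻¹ ≤ y then (1 : ℝ) else 0)|
      ≤ (k + 1 : ℝ)⁻¹ := by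
  have hk : (0 : ℝ) < k + 1 := by positivity
  set m := ⌊(k + 1 : ℝ) * y⌋₊ with hm
  have hmk : m ≤ k + 1 := by
    apply Nat.floor_le_of_le
    push_cast
    nlinarith
  have hfil : (Finset.range (k + 1)).filter (fun j : ℕ => ((j : ℝ) + 1) * (k + 1 : ℝ)⁻¹ ≤ y)
      = Finset.range m := by
    ext j
    simp only [Finset.mem_filter, Finset.mem_range]
    have e : ((j : ℝ) + 1) * (k + 1 : ℝ)⁻¹ ≤ y ↔ j + 1 ≤ m := by
      rw [hm, Nat.le_floor_iff (by positivity), ← div_eq_mul_inv, div_le_iff₀ hk]
      push_cast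
      rw [mul_comm y]
    rw [e]
    omega
  rw [← Finset.sum_filter, hfil]
  simp only [Finset.sum_const, Finset.card_range, nsmul_eq_mul, mul_one]
  have h2 : (m : ℝ) ≤ (k + 1 : ℝ) * y := Nat.floor_le (by positivity)
  have h3 : (k + 1 : ℝ) * y < m + 1 := Nat.lt_floor_add_one _
  have e1 : y - (k + 1 : ℝ)⁻¹ * m = (k + 1 : ℝ)⁻¹ * ((k + 1 : ℝ) * y - m) := by
    field_simp
  rw [e1, abs_mul, abs_of_pos (inv_pos.2 hk)]
  have h4 : |(k + 1 : ℝ) * y - m| ≤ 1 := by rw [abs_le]; constructor <;> linarith
  calc (k + 1 : ℝ)⁻¹ * |(k + 1 : ℝ) * y - m| ≤ (k + 1 : ℝ)⁻¹ * 1 := by gcongr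
    _ = _ := mul_one _

/-- From sets to functions with values in `[0, 1]`. -/
theorem SetsOn.unit {X : Type} [MeasurableSpace X] {μ : Measure X} {φ : Linf →L[ℝ] ℝ}
    (h : SetsOn μ φ) {g : ℕ → X → ℝ} (hg : ∀ n, Measurable (g n)) (h0 : ∀ n x, 0 ≤ g n x)
    (h1 : ∀ n x, g n x ≤ 1) : AEMeasurable (fun x => φ (seqOf fun n => g n x)) μ := by
  set E : ℕ → ℕ → ℕ → Set X := fun k j n => {x | ((j : ℝ) + 1) * (k + 1 : ℝ)⁻¹ ≤ g n x} with hE
  have hEm : ∀ k j n, MeasurableSet (E k j n) := fun k j n =>
    measurableSet_le measurable_const (hg n)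
  set F : ℕ → X → ℝ := fun k x => (k + 1 : ℝ)⁻¹ * ∑ j ∈ Finset.range (k + 1),
    φ (seqOf fun n => (E k j n).indicator (fun _ => 1) x) with hF
  have hFm : ∀ k, AEMeasurable (F k) μ := by
    intro k
    refine AEMeasurable.const_mul ?_ _
    exact Finset.aemeasurable_fun_sum _ fun j _ => h (E k j) (hEm k j)
  have hb1 : ∀ k j n x, |(E k j n).indicator (fun _ => (1 : ℝ)) x| ≤ 1 := by
    intro k j n x
    by_cases hx : x ∈ E k j n
    · rw [Set.indicator_of_mem hx]; simp
    · rw [Set.indicator_of_notMem hx]; simp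
  have hclose : ∀ k x, |φ (seqOf fun n => g n x) - F k x| ≤ ‖φ‖ * (k + 1 : ℝ)⁻¹ := by
    intro k x
    have hgb : ∀ n, |g n x| ≤ 1 := fun n => abs_le.2 ⟨by linarith [h0 n x], h1 n x⟩
    have hsumb : ∀ (s : Finset ℕ) n, |∑ j ∈ s, (E k j n).indicator (fun _ => (1 : ℝ)) x| ≤ s.card := by
      intro s n
      refine (Finset.abs_sum_le_sum_abs _ _).trans ?_
      calc ∑ j ∈ s, |(E k j n).indicator (fun _ => (1 : ℝ)) x| ≤ ∑ j ∈ s, (1 : ℝ) :=
            Finset.sum_le_sum fun j _ => hb1 k j n x
        _ = s.card := by simp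
    have hsum : ∀ s : Finset ℕ, ∑ j ∈ s, φ (seqOf fun n => (E k j n).indicator (fun _ => 1) x)
        = φ (seqOf fun n => ∑ j ∈ s, (E k j n).indicator (fun _ => 1) x) := by
      intro s
      induction s using Finset.induction_on with
      | empty =>
        simp only [Finset.sum_empty]
        have : seqOf (fun _ => (0 : ℝ)) = 0 := by
          ext n
          rw [seqOf_apply (C := 0) (fun n => by simp)]
          simp
        rw [this, map_zero]
      | insert a s ha ih =>
        rw [Finset.sum_insert ha, ih, ← map_add, ← seqOf_add (fun n => hb1 k a n x)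
          (fun n => hsumb s n)]
        congr 2
        ext n
        rw [Finset.sum_insert ha]
    have e1 : F k x = φ (seqOf fun n => (k + 1 : ℝ)⁻¹ *
        ∑ j ∈ Finset.range (k + 1), (E k j n).indicator (fun _ => 1) x) := by
      rw [hF]
      simp only
      rw [hsum, seqOf_smul (fun n => hsumb _ n), map_smul, smul_eq_mul]
    have hb2 : ∀ n, |(k + 1 : ℝ)⁻¹ *
        ∑ j ∈ Finset.range (k + 1), (E k j n).indicator (fun _ => (1 : ℝ)) x| ≤ 1 := by
      intro n
      rw [abs_mul, abs_of_pos (by positivity : (0 : ℝ) < (k + 1 : ℝ)⁻¹)]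
      calc (k + 1 : ℝ)⁻¹ * |∑ j ∈ Finset.range (k + 1), (E k j n).indicator (fun _ => (1 : ℝ)) x|
          ≤ (k + 1 : ℝ)⁻¹ * ((Finset.range (k + 1)).card : ℝ) := by gcongr; exact hsumb _ n
        _ = 1 := by rw [Finset.card_range]; push_cast; field_simp
    rw [e1, ← map_sub, ← seqOf_sub hgb hb2]
    refine abs_map_seqOf_le φ fun n => ?_
    have e2 : ∀ j, (E k j n).indicator (fun _ => (1 : ℝ)) x
        = if ((j : ℝ) + 1) * (k + 1 : ℝ)⁻¹ ≤ g n x then (1 : ℝ) else 0 := by
      intro j
      simp only [Set.indicator, hE, Set.mem_setOf_eq]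
    simp only [e2]
    exact abs_sub_floor_le (h0 n x) (h1 n x) k
  have hlim : ∀ x, Filter.Tendsto (fun k => F k x) Filter.atTop
      (nhds (φ (seqOf fun n => g n x))) := by
    intro x
    rw [tendsto_iff_dist_tendsto_zero]
    have h2 : Filter.Tendsto (fun k : ℕ => ‖φ‖ * (k + 1 : ℝ)⁻¹) Filter.atTop (nhds (‖φ‖ * 0)) := by
      refine Filter.Tendsto.const_mul _ ?_
      have := tendsto_one_div_add_atTop_nhds_zero_nat (𝕜 := ℝ)
      simpa [one_div] using this
    rw [mul_zero] at h2
    refine squeeze_zero (fun k => dist_nonneg) (fun k => ?_) h2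
    rw [Real.dist_eq, abs_sub_comm]
    exact hclose k x
  exact aemeasurable_of_tendsto_metrizable_ae Filter.atTop hFm (Filter.Eventually.of_forall hlim)

/-- From sets to bounded functions. -/
theorem SetsOn.measOn {X : Type} [MeasurableSpace X] {μ : Measure X} {φ : Linf →L[ℝ] ℝ}
    (h : SetsOn μ φ) : MeasOn μ φ := by
  intro g C hg hC
  by_cases hne : Nonempty X
  · obtain ⟨x0⟩ := hne
    have hC0 : 0 ≤ C := (abs_nonneg _).trans (hC 0 x0)
    set D : ℝ := C + 1 with hD
    have hD0 : 0 < D := by positivity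
    have hb : ∀ n x, |g n x| ≤ D := fun n x => (hC n x).trans (by linarith)
    have h1 := h.unit (g := fun n x => (2 * D)⁻¹ * (g n x + D))
      (fun n => ((hg n).add_const _).const_mul _)
      (fun n x => by
        have := (abs_le.1 (hb n x)).1
        have h2 : 0 ≤ g n x + D := by linarith
        positivity)
      (fun n x => by
        have := (abs_le.1 (hb n x)).2
        rw [inv_mul_le_iff₀ (by positivity)]
        linarith)
    have hcon : ∀ n : ℕ, |(fun _ : ℕ => D) n| ≤ D := fun n => (abs_of_pos hD0).le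
    have e : ∀ x, φ (seqOf fun n => g n x) = (2 * D) * φ (seqOf fun n => (2 * D)⁻¹ * (g n x + D))
        - φ (seqOf fun _ => D) := by
      intro x
      have hb3 : ∀ n, |g n x + D| ≤ D + D := fun n =>
        (abs_add_le _ _).trans (add_le_add (hb n x) (abs_of_pos hD0).le)
      rw [seqOf_smul hb3, map_smul, smul_eq_mul, seqOf_add (fun n => hb n x) hcon, map_add]
      field_simp
      ring
    simp only [e]
    exact (h1.const_mul _).sub_const _
  · rw [not_nonempty_iff] at hne
    exact ⟨fun x => 0, measurable_const, Filter.Eventually.of_forall fun x => (hne.false x).elim⟩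

/-- A function on a standard Borel space is measurable if its composition with a measurable map is. -/
theorem aemeasurable_of_comp {S : Type} [MeasurableSpace S] [StandardBorelSpace S]
    (ν : Measure S) [IsProbabilityMeasure ν] {q : unitInterval → S} (hq : Measurable q)
    (hqν : Measure.map q volume = ν) {ψ : S → ℝ}
    (hψ : AEMeasurable (fun t => ψ (q t)) (volume : Measure unitInterval)) :
    AEMeasurable ψ ν := by
  set p : unitInterval → S × unitInterval := fun t => (q t, t) with hp
  have hpm : Measurable p := hq.prodMk measurable_id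
  set ρ : Measure (S × unitInterval) := Measure.map p volume with hρ
  have : IsProbabilityMeasure ρ := Measure.isProbabilityMeasure_map hpm.aemeasurable
  have hfst : ρ.fst = ν := by
    rw [Measure.fst, hρ, Measure.map_map measurable_fst hpm, ← hqν]
    rfl
  set ψ' := hψ.mk (fun t => ψ (q t)) with hψ'
  have hψm : Measurable ψ' := hψ.measurable_mk
  have hae : ∀ᵐ t ∂(volume : Measure unitInterval), ψ (q t) = ψ' t := hψ.ae_eq_mk
  obtain ⟨N, hN1, hN2, hN3⟩ : ∃ N : Set unitInterval, (∀ t ∉ N, ψ (q t) = ψ' t) ∧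
      MeasurableSet N ∧ volume N = 0 := by
    obtain ⟨N, h1, h2, h3⟩ := exists_measurable_superset_of_null (ae_iff.1 hae)
    refine ⟨N, fun t ht => ?_, h2, h3⟩
    by_contra hne
    exact ht (h1 hne)
  have hdis : ρ.fst ⊗ₘ ρ.condKernel = ρ := ρ.disintegrate ρ.condKernel
  have hae2 : ∀ᵐ z ∂ρ, q z.2 = z.1 ∧ z.2 ∉ N := by
    rw [hρ, ae_map_iff hpm.aemeasurable]
    · have : ∀ᵐ t ∂(volume : Measure unitInterval), t ∉ N := by
        rw [ae_iff]; simpa using hN3
      filter_upwards [this] with t ht
      exact ⟨rfl, ht⟩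
    · exact (measurableSet_eq_fun (hq.comp measurable_snd) measurable_fst).inter
        (measurable_snd hN2.compl)
  rw [← hdis] at hae2
  have hae3 := Measure.ae_ae_of_ae_compProd hae2
  rw [hfst] at hae3
  refine ⟨fun s => ∫ t, ψ' t ∂(ρ.condKernel s), ?_, ?_⟩
  · exact (StronglyMeasurable.integral_kernel hψm.stronglyMeasurable).measurable
  · filter_upwards [hae3] with s hs
    have e : ∀ᵐ t ∂(ρ.condKernel s), ψ' t = ψ s := by
      filter_upwards [hs] with t ht
      have := hN1 t ht.2
      rw [← this]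
      have h5 : q t = s := ht.1
      rw [h5]
    rw [integral_congr_ae e]
    simp

/-- Measurability on all standard Borel spaces. -/
theorem measOn_standard {φ : Linf →L[ℝ] ℝ} (h : SetsMeasurable φ) {S : Type} [MeasurableSpace S]
    [StandardBorelSpace S] (ν : Measure S) [IsProbabilityMeasure ν] : MeasOn ν φ := by
  intro g C hg hC
  have hne : Nonempty S := by
    by_contra hcon
    rw [not_nonempty_iff] at hcon
    have := measure_univ (μ := ν)
    rw [Set.univ_eq_empty_iff.2 hcon] at this
    simp at this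
  obtain ⟨q, hq, hqν⟩ := Measure.exists_measurable_map_eq ν
  refine aemeasurable_of_comp ν hq hqν ?_
  exact (setsOn_unitInterval h).measOn (fun n t => g n (q t)) C (fun n => (hg n).comp hq)
    (fun n t => hC n (q t))

end Pool.Agent.MP_87323d_lc
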